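import Pool.Agent.Lib.MP_ddf864_co.Defs

/-!
# MP_ddf864_co : the critical theorem (counting maps)
-/

set_option linter.unusedSectionVars false

namespace MPddf864

open Submodule Module

section Count

variable {K V W : Type} [Field K] [Fintype K] [AddCommGroup V] [Module K V]
  [FiniteDimensional K V] [AddCommGroup W] [Module K W] [FiniteDimensional K W]

/-- linear maps vanishing on `U` are linear maps on the quotient -/
noncomputable def annEquiv (U : Submodule K V) :
    {φ : V →ₗ[K] W // U ≤ LinearMap.ker φ} ≃ ((V ⧸ U) →ₗ[K] W) where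
  toFun φ := U.liftQ φ.1 φ.2
  invFun g := ⟨g.comp U.mkQ, by
    intro x hx
    rw [LinearMap.mem_ker, LinearMap.comp_apply, Submodule.mkQ_apply,
      (Submodule.Quotient.mk_eq_zero U).2 hx, map_zero]⟩
  left_inv φ := by
    apply Subtype.ext
    exact Submodule.liftQ_mkQ U φ.1 φ.2
  right_inv g := by
    apply LinearMap.ext
    intro x
    obtain ⟨y, rfl⟩ := Submodule.Quotient.mk_surjective U x
    rfl

lemma card_ann (U : Submodule K V) :
    Nat.card {φ : V →ₗ[K] W // U ≤ LinearMap.ker φ} =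
      Fintype.card K ^ ((finrank K V - finrank K U) * finrank K W) := by
  rw [Nat.card_congr (annEquiv U)]
  have : Finite ((V ⧸ U) →ₗ[K] W) := Module.finite_of_finite K
  have : Fintype ((V ⧸ U) →ₗ[K] W) := Fintype.ofFinite _
  rw [Nat.card_eq_fintype_card, Module.card_eq_pow_finrank (K := K), Module.finrank_linearMap]
  congr 2
  have := Submodule.finrank_quotient_add_finrank U
  omega

end Count

section Main

variable {K : Type} [Field K] [Fintype K] {α : Type} [Fintype α] {n : ℕ}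

/-- rank of a set of vectors -/
noncomputable def vr (v : α → Fin n → K) (X : Set α) : ℕ := finrank K (span K (v '' X))

/-- The critical theorem, for a matroid `N` whose rank function is that of the contraction of the
vector matroid by the set `T`. -/
theorem charPoly_eq (N : Matroid α) (v : α → Fin n → K) (T : Set α)
    (hr : ∀ X ⊆ N.E, rk N X + vr v T = vr v (X ∪ T)) (j : ℕ) :
    charPoly N ((Fintype.card K : ℤ) ^ j) *
      ((Fintype.card K : ℤ) ^ j) ^ (n - vr v (N.E ∪ T)) =
    Nat.card {φ : (Fin n → K) →ₗ[K] (Fin j → K) //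
      (∀ t ∈ T, φ (v t) = 0) ∧ ∀ e ∈ N.E, φ (v e) ≠ 0} := by
  classical
  -- the finite set of maps vanishing on `T`
  let Ω := {φ : (Fin n → K) →ₗ[K] (Fin j → K) // ∀ t ∈ T, φ (v t) = 0}
  have : Finite ((Fin n → K) →ₗ[K] (Fin j → K)) := Module.finite_of_finite K
  have : Fintype Ω := Fintype.ofFinite _
  let S : α → Finset Ω := fun e => Finset.univ.filter (fun φ => φ.1 (v e) = 0)
  have hie := Finset.inclusion_exclusion_card_inf_compl (N.E.toFinset) S
  have hleft : ((N.E.toFinset).inf fun i => (S i)ᶜ).card =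
      Nat.card {φ : (Fin n → K) →ₗ[K] (Fin j → K) //
        (∀ t ∈ T, φ (v t) = 0) ∧ ∀ e ∈ N.E, φ (v e) ≠ 0} := by
    rw [← Fintype.card_coe, ← Nat.card_eq_fintype_card]
    refine Nat.card_congr ((Equiv.subtypeEquivRight ?_).trans
      (Equiv.subtypeSubtypeEquivSubtypeInter (fun φ : (Fin n → K) →ₗ[K] (Fin j → K) =>
        ∀ t ∈ T, φ (v t) = 0) (fun φ => ∀ e ∈ N.E, φ (v e) ≠ 0)))
    intro φ
    simp only [Finset.mem_inf, Set.mem_toFinset, Finset.mem_compl, S, Finset.mem_filter,
      Finset.mem_univ, true_and, ne_eq]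
  have hright : ∀ X : Finset α, (X.inf S).card =
      Fintype.card K ^ ((n - vr v ((X : Set α) ∪ T)) * j) := by
    intro X
    have h1 := card_ann (K := K) (V := Fin n → K) (W := Fin j → K)
      (span K (v '' ((X : Set α) ∪ T)))
    rw [finrank_fin_fun, finrank_fin_fun] at h1
    unfold vr
    rw [← h1, ← Fintype.card_coe, ← Nat.card_eq_fintype_card]
    refine Nat.card_congr ((Equiv.subtypeEquivRight (q := fun φ : Ω => ∀ e ∈ X, φ.1 (v e) = 0)
      ?_).trans ((Equiv.subtypeSubtypeEquivSubtypeInter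
        (fun φ : (Fin n → K) →ₗ[K] (Fin j → K) => ∀ t ∈ T, φ (v t) = 0)
        (fun φ => ∀ e ∈ X, φ (v e) = 0)).trans (Equiv.subtypeEquivRight ?_)))
    · intro φ
      simp only [Finset.mem_inf, S, Finset.mem_filter, Finset.mem_univ, true_and]
    · intro φ
      rw [span_le]
      constructor
      · rintro ⟨hT, hX⟩ _ ⟨e, he, rfl⟩
        rcases he with he | he
        · exact hX e he
        · exact hT e he
      · intro h
        exact ⟨fun t ht => h ⟨t, Or.inr ht, rfl⟩, fun e he => h ⟨e, Or.inl he, rfl⟩⟩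
  rw [hleft] at hie
  rw [hie]
  unfold charPoly
  rw [Finset.sum_mul]
  have hE : ((N.E.toFinset : Finset α) : Set α) = N.E := by simp
  refine Finset.sum_congr (by congr) (fun X hX => ?_)
  rw [hright X]
  have hXE : (X : Set α) ⊆ N.E := by
    rw [Finset.mem_powerset] at hX
    intro e he
    exact Set.mem_toFinset.1 (hX he)
  have h1 := hr _ hXE
  have h2 := hr _ subset_rfl
  have hmono : vr v ((X : Set α) ∪ T) ≤ vr v (N.E ∪ T) :=
    Submodule.finrank_mono (span_mono (Set.image_mono (Set.union_subset_union_left _ hXE)))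
  have hn : vr v (N.E ∪ T) ≤ n := by
    have := Submodule.finrank_le (span K (v '' (N.E ∪ T)))
    rwa [finrank_fin_fun] at this
  push_cast
  have h3 : rk N N.E - rk N (X : Set α) + (n - vr v (N.E ∪ T)) = n - vr v ((X : Set α) ∪ T) := by
    omega
  rw [mul_assoc, ← pow_add, h3, ← pow_mul, mul_comm j]

theorem charPoly_pos_iff (N : Matroid α) (v : α → Fin n → K) (T : Set α)
    (hr : ∀ X ⊆ N.E, rk N X + vr v T = vr v (X ∪ T)) (j : ℕ) :
    0 < charPoly N ((Fintype.card K : ℤ) ^ j) ↔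
      ∃ φ : (Fin n → K) →ₗ[K] (Fin j → K),
        (∀ t ∈ T, φ (v t) = 0) ∧ ∀ e ∈ N.E, φ (v e) ≠ 0 := by
  have h1 := charPoly_eq N v T hr j
  have hq : (0 : ℤ) < ((Fintype.card K : ℤ) ^ j) ^ (n - vr v (N.E ∪ T)) := by
    have : 0 < Fintype.card K := Fintype.card_pos
    positivity
  have : Finite ((Fin n → K) →ₗ[K] (Fin j → K)) := Module.finite_of_finite K
  rw [← mul_pos_iff_of_pos_right hq, h1]
  constructor
  · intro h
    have h2 : 0 < Nat.card {φ : (Fin n → K) →ₗ[K] (Fin j → K) //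
        (∀ t ∈ T, φ (v t) = 0) ∧ ∀ e ∈ N.E, φ (v e) ≠ 0} := by exact_mod_cast h
    obtain ⟨⟨φ, hφ⟩⟩ := (Nat.card_pos_iff.1 h2).1
    exact ⟨φ, hφ⟩
  · rintro ⟨φ, hφ⟩
    have h2 : 0 < Nat.card {φ : (Fin n → K) →ₗ[K] (Fin j → K) //
        (∀ t ∈ T, φ (v t) = 0) ∧ ∀ e ∈ N.E, φ (v e) ≠ 0} :=
      Nat.card_pos_iff.2 ⟨⟨⟨φ, hφ⟩⟩, inferInstance⟩
    exact_mod_cast h2

end Main

end MPddf864
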