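import Mathlib

/-!
# MP_ddf864_co : tangential blocks, official definitions
-/

namespace MPddf864

/-- the rank `r(X)` of a set, as a natural number -/
noncomputable def rk {α : Type} (M : Matroid α) (X : Set α) : ℕ := (M.eRk X).toNat

/-- the characteristic polynomial `p(M; t) = ∑_{X ⊆ E} (-1)^|X| t^(r(E) - r(X))` -/
noncomputable def charPoly {α : Type} [Fintype α] (M : Matroid α) (t : ℤ) : ℤ :=
  open Classical in
  ∑ X ∈ M.E.toFinset.powerset, (-1) ^ X.card * t ^ (rk M M.E - rk M (X : Set α))

/-- the critical exponent `c(M; q)`: infinite if `M` has a loop, and otherwise the least `j` with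
`p(M; q^j) > 0` -/
noncomputable def critExp {α : Type} [Fintype α] (M : Matroid α) (q : ℕ) : ℕ∞ :=
  open Classical in
  if ∃ e, M.IsLoop e then ⊤ else sInf {c : ℕ∞ | ∃ j : ℕ, c = j ∧ 0 < charPoly M ((q : ℤ) ^ j)}

/-- `M` is simple: no loops and no parallel elements -/
def IsSimple {α : Type} (M : Matroid α) : Prop := ∀ e ∈ M.E, ∀ f ∈ M.E, M.Indep {e, f}

/-- `M` is representable (coordinatizable) over the field `K` -/
def IsRep (K : Type) [Field K] {α : Type} (M : Matroid α) : Prop :=
  ∃ (n : ℕ) (v : α → Fin n → K), ∀ I ⊆ M.E, M.Indep I ↔ LinearIndepOn K v I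

/-- `M` is a tangential `k`-block over the finite field `K`: it is simple and representable over
`K`, `c(M; q) > k` with `q = |K|`, and every simple proper minor `N` of `M` has
`c(N; q) ≤ k`. -/
structure IsTangentialBlock (K : Type) [Field K] [Fintype K] {α : Type} [Fintype α] (k : ℕ)
    (M : Matroid α) : Prop where
  simple : IsSimple M
  rep : IsRep K M
  block : (k : ℕ∞) < critExp M (Fintype.card K)
  minors : ∀ N : Matroid α, N.IsStrictMinor M → IsSimple N → critExp N (Fintype.card K) ≤ k

end MPddf864
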