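import Mathlib

/-!
# MP_ddf864_co : sets covered by linear forms

A finite set `S` of nonzero vectors with `(q - 1) |S| + 1 < q ^ (c + 1)` is avoided by a subspace of
codimension `c` (Bose and Burton).
-/

namespace MPddf864

open Module Submodule

/-- There are `c` linear forms such that every element of `S` is nonzero on one of them. -/
def cov (K : Type*) {V : Type*} [Field K] [AddCommGroup V] [Module K V] (S : Set V) (c : ℕ) : Prop :=
  ∃ φ : V →ₗ[K] (Fin c → K), ∀ s ∈ S, φ s ≠ 0

section

variable {K : Type*} {V : Type*} [Field K] [AddCommGroup V] [Module K V]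

theorem cov_add {S T : Set V} {a b : ℕ} (hS : cov K S a) (hT : cov K T b) : cov K (S ∪ T) (a + b) := by
  obtain ⟨φ, hφ⟩ := hS
  obtain ⟨ψ, hψ⟩ := hT
  refine ⟨LinearMap.pi (Fin.append (fun i => LinearMap.proj i ∘ₗ φ) fun j => LinearMap.proj j ∘ₗ ψ),
    fun s hs h0 => ?_⟩
  rcases hs with hs | hs
  · apply hφ s hs
    funext i
    have := congrFun h0 (Fin.castAdd b i)
    simpa [LinearMap.pi_apply, Fin.append_left] using this
  · apply hψ s hs
    funext i
    have := congrFun h0 (Fin.natAdd a i)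
    simpa [LinearMap.pi_apply, Fin.append_right] using this

theorem cov_mono {S : Set V} {a b : ℕ} (hS : cov K S a) (hab : a ≤ b) : cov K S b := by
  obtain ⟨c, rfl⟩ := Nat.exists_eq_add_of_le hab
  have h : cov K (∅ : Set V) c := ⟨0, fun s hs => absurd hs (Set.notMem_empty s)⟩
  have := cov_add hS h
  rwa [Set.union_empty] at this

theorem cov_rank [FiniteDimensional K V] {S : Set V} (h0 : (0 : V) ∉ S) :
    cov K S (finrank K (span K S)) := by
  obtain ⟨φ, hφ⟩ := LinearMap.exists_extend (p := span K S)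
    (finBasis K (span K S)).equivFun.toLinearMap
  refine ⟨φ, fun s hs h => h0 ?_⟩
  have h1 : (finBasis K (span K S)).equivFun ⟨s, subset_span hs⟩ = 0 := by
    have := LinearMap.congr_fun hφ ⟨s, subset_span hs⟩
    rw [← h]
    exact this.symm
  rw [LinearEquiv.map_eq_zero_iff] at h1
  have h2 : s = 0 := congrArg Subtype.val h1
  rwa [h2] at hs

/-- The number of elements of the kernel of a surjective linear map. -/
theorem card_ker_mul {W : Type*} [AddCommGroup W] [Module K W] [Finite K] [FiniteDimensional K V]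
    [FiniteDimensional K W] (g : V →ₗ[K] W) (hg : Function.Surjective g) :
    Nat.card (LinearMap.ker g) * Nat.card W = Nat.card V := by
  rw [Module.natCard_eq_pow_finrank (K := K) (V := V), Module.natCard_eq_pow_finrank (K := K) (V := W),
    Module.natCard_eq_pow_finrank (K := K) (V := LinearMap.ker g), ← pow_add,
    ← g.finrank_range_add_finrank_ker, LinearMap.range_eq_top.2 hg, finrank_top, add_comm]

/-- The number of linear forms which vanish at a nonzero vector. -/
theorem card_dual_zero [Finite K] [FiniteDimensional K V] {s : V} (hs : s ≠ 0) :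
    ({f : Dual K V | f s = 0}).ncard * Nat.card K = Nat.card (Dual K V) := by
  have h1 : Dual.eval K V s ≠ 0 := by
    intro h
    exact hs ((forall_dual_apply_eq_zero_iff K s).1 fun f => LinearMap.congr_fun h f)
  have h2 := card_ker_mul (Dual.eval K V s) (LinearMap.surjective h1)
  rw [← h2]
  rfl

theorem exists_form [Finite K] [FiniteDimensional K V] {S : Set V} (h0 : (0 : V) ∉ S)
    (hne : S.Nonempty) : ∃ f : Dual K V, Nat.card K * (S ∩ {s | f s = 0}).ncard + 1 ≤ S.ncard := by
  classical
  have hfV : Finite V := Module.finite_of_finite K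
  have hfD : Finite (Dual K V) := Module.finite_of_finite K
  have hfD' : Fintype (Dual K V) := Fintype.ofFinite _
  have hq : 1 < Nat.card K := Finite.one_lt_card
  obtain ⟨s0, hs0⟩ := hne
  have hfin : S.Finite := Set.toFinite _
  have hS : 0 < S.ncard := (Set.ncard_pos hfin).2 ⟨s0, hs0⟩
  by_contra hcon
  push Not at hcon
  obtain ⟨c, hc⟩ : ∃ c, c = ({f : Dual K V | f s0 = 0}).ncard := ⟨_, rfl⟩
  have hcs : ∀ s ∈ S, ({f : Dual K V | f s = 0}).ncard = c := by
    intro s hs
    have h1 := card_dual_zero (K := K) (fun h => h0 (h ▸ hs) : s ≠ 0)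
    have h2 := card_dual_zero (K := K) (fun h => h0 (h ▸ hs0) : s0 ≠ 0)
    rw [← h2, ← hc] at h1
    exact Nat.eq_of_mul_eq_mul_right (by omega) h1
  have hcq : c * Nat.card K = Nat.card (Dual K V) := by
    rw [hc]
    exact card_dual_zero (fun h => h0 (h ▸ hs0))
  -- double counting
  have h3 : ∑ f : Dual K V, (S ∩ {s | f s = 0}).ncard = S.ncard * c := by
    have e1 : ∀ f : Dual K V, (S ∩ {s | f s = 0}).ncard =
        ∑ s ∈ hfin.toFinset, if f s = 0 then 1 else 0 := by
      intro f
      rw [← Finset.card_filter, ← Set.ncard_coe_finset]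
      congr 1
      ext s
      simp
    have e2 : ∀ s ∈ hfin.toFinset, ∑ f : Dual K V, (if f s = 0 then 1 else 0) = c := by
      intro s hs
      rw [← hcs s (hfin.mem_toFinset.1 hs), ← Finset.card_filter, ← Set.ncard_coe_finset]
      congr 1
      ext f
      simp
    rw [Finset.sum_congr rfl fun f _ => e1 f, Finset.sum_comm, Finset.sum_congr rfl e2,
      Finset.sum_const, smul_eq_mul, ← Set.ncard_eq_toFinset_card S hfin]
  have h4 : ∑ f ∈ Finset.univ.erase (0 : Dual K V), (S ∩ {s | f s = 0}).ncard + S.ncard =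
      S.ncard * c := by
    rw [← h3, ← Finset.sum_erase_add _ _ (Finset.mem_univ (0 : Dual K V))]
    congr 2
    ext s
    simp
  have h5 : ∑ f ∈ Finset.univ.erase (0 : Dual K V), S.ncard ≤
      ∑ f ∈ Finset.univ.erase (0 : Dual K V), Nat.card K * (S ∩ {s | f s = 0}).ncard := by
    refine Finset.sum_le_sum fun f _ => ?_
    have := hcon f
    omega
  rw [← Finset.mul_sum, Finset.sum_const, smul_eq_mul, Finset.card_erase_of_mem (Finset.mem_univ _),
    Finset.card_univ, ← Nat.card_eq_fintype_card, ← hcq] at h5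
  obtain ⟨X, hX⟩ : ∃ X, X = ∑ f ∈ Finset.univ.erase (0 : Dual K V), (S ∩ {s | f s = 0}).ncard :=
    ⟨_, rfl⟩
  rw [← hX] at h4 h5
  obtain ⟨q, hqq⟩ : ∃ q, q = Nat.card K := ⟨_, rfl⟩
  obtain ⟨σ, hσ⟩ : ∃ σ, σ = S.ncard := ⟨_, rfl⟩
  rw [← hqq] at h5 hq hcq
  rw [← hσ] at h4 h5 hS
  have h6 : 0 < c := by
    rcases Nat.eq_zero_or_pos c with h | h
    · rw [h, zero_mul] at hcq
      have : 0 < Nat.card (Dual K V) := Nat.card_pos
      omega
    · exact h
  have h7 : c * q - 1 + 1 = c * q := Nat.sub_add_cancel (Nat.mul_pos h6 (by omega))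
  have h8 : (c * q - 1 + 1) * σ ≤ q * X + σ := by
    rw [add_mul, one_mul]; omega
  rw [h7] at h8
  have h9 : q * (X + σ) = q * (σ * c) := by rw [h4]
  have h10 : q * (σ * c) = c * q * σ := by ring
  have h11 : q * X + q * σ ≤ q * X + σ := by
    rw [← mul_add, h9, h10]; exact h8
  have h12 : q * σ ≤ 1 * σ := by omega
  have := Nat.le_of_mul_le_mul_right h12 hS
  omega

/-- Bose and Burton. -/
theorem bose_burton [Finite K] [FiniteDimensional K V] (c : ℕ) : ∀ S : Set V, (0 : V) ∉ S →
    (Nat.card K - 1) * S.ncard + 1 < Nat.card K ^ (c + 1) → cov K S c := by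
  have hfV : Finite V := Module.finite_of_finite K
  have hq : 1 < Nat.card K := Finite.one_lt_card
  induction c with
  | zero =>
    intro S h0 h
    have h1 : S.ncard = 0 := by
      by_contra hne
      have h2 : (Nat.card K - 1) * 1 ≤ (Nat.card K - 1) * S.ncard :=
        Nat.mul_le_mul_left _ (Nat.one_le_iff_ne_zero.2 hne)
      rw [zero_add, pow_one] at h
      omega
    rw [Set.ncard_eq_zero (Set.toFinite _)] at h1
    rw [h1]
    exact ⟨0, fun s hs => absurd hs (Set.notMem_empty s)⟩
  | succ c ih =>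
    intro S h0 h
    rcases S.eq_empty_or_nonempty with hS | hS
    · rw [hS]
      exact ⟨0, fun s hs => absurd hs (Set.notMem_empty s)⟩
    obtain ⟨f, hf⟩ := exists_form (K := K) h0 hS
    have h1 : cov K (S ∩ {s | f s = 0}) c := by
      refine ih _ (fun h => h0 h.1) ?_
      obtain ⟨q, hqq⟩ : ∃ q, Nat.card K = q + 1 := ⟨Nat.card K - 1, by omega⟩
      rw [hqq] at hf h ⊢
      rw [Nat.add_sub_cancel] at h ⊢
      have h2 : q * ((q + 1) * (S ∩ {s | f s = 0}).ncard + 1) ≤ q * S.ncard := Nat.mul_le_mul_left _ hf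
      have h3 : (q + 1) * (q * (S ∩ {s | f s = 0}).ncard + 1) < (q + 1) * (q + 1) ^ (c + 1) := by
        have h4 : (q + 1) * (q * (S ∩ {s | f s = 0}).ncard + 1) =
            q * ((q + 1) * (S ∩ {s | f s = 0}).ncard + 1) + 1 := by ring
        rw [h4, ← pow_succ']
        omega
      exact Nat.lt_of_mul_lt_mul_left h3
    have h5 : cov K (S ∩ {s | f s ≠ 0}) 1 :=
      ⟨LinearMap.pi fun _ => f, fun s hs h => hs.2 (congrFun h 0)⟩
    obtain ⟨φ, hφ⟩ := cov_add h1 h5
    refine ⟨φ, fun s hs => hφ s ?_⟩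
    by_cases h6 : f s = 0
    · exact Or.inl ⟨hs, h6⟩
    · exact Or.inr ⟨hs, h6⟩

end

end MPddf864
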