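import Pool.Agent.Lib.MP_ddf864_co.LRMotz
import Pool.Agent.Lib.MP_ddf864_co.LRCov

/-!
# MP_ddf864_co : the configuration of a tangential block without a spanning bond
-/

namespace MPddf864

open Module Submodule

/-- The configuration of a tangential `k`-block without a spanning bond: the set `C` of the nonzero
multiples of its elements. -/
structure TB (K : Type*) {V : Type*} [Field K] [AddCommGroup V] [Module K V] (C : Set V) (k : ℕ) :
    Prop where
  zero : (0 : V) ∉ C
  smul : ∀ a : K, a ≠ 0 → ∀ v ∈ C, a • v ∈ C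
  spans : span K C = ⊤
  block : ∀ φ : V →ₗ[K] (Fin k → K), ∃ c ∈ C, φ c = 0
  tang : ∀ x ∈ C, ∃ ψ : V →ₗ[K] (Fin k → K), ∀ y ∈ C, ψ y = 0 → y ∈ span K {x}
  bond : ∀ f ∈ hyp K C, ∃ g : Dual K V, g ≠ 0 ∧ ∀ c ∈ C, f c * g c = 0

/-- There are `m` independent pairs of linear forms whose product is zero on `C`. -/
def prs (K : Type*) {V : Type*} [Field K] [AddCommGroup V] [Module K V] (C : Set V) (m : ℕ) : Prop :=
  ∃ Θ : V →ₗ[K] (Fin m → K × K), Function.Surjective Θ ∧ ∀ c ∈ C, ∀ i, (Θ c i).1 * (Θ c i).2 = 0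

section

variable {K : Type*} {V : Type*} [Field K] [AddCommGroup V] [Module K V]

theorem card_ne_zero' [Finite K] : ({a : K | a ≠ 0}).ncard = Nat.card K - 1 := by
  have := Set.ncard_add_ncard_compl ({(0 : K)} : Set K)
  rw [Set.ncard_singleton] at this
  rw [← this, Nat.add_sub_cancel_left]
  rfl

/-- Representatives of the lines of a set closed under nonzero scalars. -/
theorem exists_reps [Finite K] [FiniteDimensional K V] (n : ℕ) : ∀ S : Set V, S.ncard = n → (0 : V) ∉ S →
    (∀ a : K, a ≠ 0 → ∀ v ∈ S, a • v ∈ S) →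
    ∃ R ⊆ S, (Nat.card K - 1) * R.ncard ≤ S.ncard ∧ ∀ s ∈ S, ∃ r ∈ R, ∃ a : K, s = a • r := by
  have hfV : Finite V := Module.finite_of_finite K
  induction n using Nat.strong_induction_on with
  | _ n ih =>
    intro S hn h0 hS
    rcases S.eq_empty_or_nonempty with he | ⟨s, hs⟩
    · refine ⟨∅, Set.empty_subset _, by simp, ?_⟩
      intro x hx
      rw [he] at hx
      exact absurd hx (Set.notMem_empty x)
    have hs0 : s ≠ 0 := fun h => h0 (h ▸ hs)
    obtain ⟨A, hA⟩ : ∃ A : Set V, A = (fun a : K => a • s) '' {a | a ≠ 0} := ⟨_, rfl⟩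
    have hAS : A ⊆ S := by
      rw [hA]
      rintro _ ⟨a, ha, rfl⟩
      exact hS a ha s hs
    have hAc : A.ncard = Nat.card K - 1 := by
      rw [hA, Set.InjOn.ncard_image, card_ne_zero']
      intro a _ b _ hab
      exact smul_left_injective K hs0 hab
    have hsA : s ∈ A := by
      rw [hA]
      exact ⟨1, one_ne_zero, one_smul _ _⟩
    have hc : (S \ A).ncard + A.ncard = S.ncard := Set.ncard_sdiff_add_ncard_of_subset hAS
    have hApos : 0 < A.ncard := (Set.ncard_pos (Set.toFinite _)).2 ⟨s, hsA⟩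
    obtain ⟨R, hR, hRc, hRr⟩ := ih (S \ A).ncard (by omega) (S \ A) rfl (fun h => h0 h.1) (by
      intro a ha v hv
      refine ⟨hS a ha v hv.1, fun h => hv.2 ?_⟩
      rw [hA] at h ⊢
      obtain ⟨b, hb, hbv⟩ := h
      refine ⟨a⁻¹ * b, mul_ne_zero (inv_ne_zero ha) hb, ?_⟩
      change (a⁻¹ * b) • s = v
      rw [mul_smul]
      change b • s = a • v at hbv
      rw [hbv, smul_smul, inv_mul_cancel₀ ha, one_smul])
    refine ⟨insert s R, ?_, ?_, ?_⟩
    · intro x hx
      rcases hx with rfl | hx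
      · exact hs
      · exact (hR hx).1
    · have := Set.ncard_insert_le s R
      have h2 : (Nat.card K - 1) * (insert s R).ncard ≤ (Nat.card K - 1) * (R.ncard + 1) :=
        Nat.mul_le_mul_left _ this
      rw [mul_add, mul_one] at h2
      omega
    · intro x hx
      by_cases hxA : x ∈ A
      · rw [hA] at hxA
        obtain ⟨a, _, rfl⟩ := hxA
        exact ⟨s, Set.mem_insert _ _, a, rfl⟩
      · obtain ⟨r, hr, a, ha⟩ := hRr x ⟨hx, hxA⟩
        exact ⟨r, Set.mem_insert_of_mem _ hr, a, ha⟩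

/-- Bose and Burton for sets closed under nonzero scalars. -/
theorem bb_cone [Finite K] [FiniteDimensional K V] {S : Set V} (h0 : (0 : V) ∉ S)
    (hS : ∀ a : K, a ≠ 0 → ∀ v ∈ S, a • v ∈ S) {c : ℕ} (h : S.ncard + 1 < Nat.card K ^ (c + 1)) :
    cov K S c := by
  obtain ⟨R, hR, hRc, hRr⟩ := exists_reps _ S rfl h0 hS
  obtain ⟨φ, hφ⟩ := bose_burton (K := K) c R (fun h => h0 (hR h)) (by omega)
  refine ⟨φ, fun s hs h1 => ?_⟩
  obtain ⟨r, hr, a, rfl⟩ := hRr s hs
  rw [map_smul, smul_eq_zero] at h1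
  rcases h1 with h1 | h1
  · rw [h1, zero_smul] at hs
    exact h0 hs
  · exact hφ r hr h1

/-- A bond has many elements. -/
theorem TB.bond_card [Finite K] [FiniteDimensional K V] {C : Set V} {k : ℕ} (h : TB K C k)
    {t : Dual K V} (ht : t ≠ 0) :
    (Nat.card K - 1) * Nat.card K ^ k ≤ ({c | c ∈ C ∧ t c ≠ 0}).ncard := by
  have hfV : Finite V := Module.finite_of_finite K
  obtain ⟨x, hx, htx⟩ : ∃ x ∈ C, t x ≠ 0 := by
    by_contra hcon
    push Not at hcon
    apply ht
    have h1 : span K C ≤ LinearMap.ker t := by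
      rw [span_le]
      exact hcon
    rw [h.spans, top_le_iff, LinearMap.ker_eq_top] at h1
    exact h1
  obtain ⟨ψ, hψ⟩ := h.tang x hx
  have h2 : ({a : K | a ≠ 0} ×ˢ (Set.univ : Set (Fin k → K))).ncard =
      (Nat.card K - 1) * Nat.card K ^ k := by
    rw [Set.ncard_prod, card_ne_zero', Set.ncard_univ, Nat.card_fun, Nat.card_fin]
  rw [← h2]
  refine le_trans (Set.ncard_le_ncard ?_ (Set.toFinite _))
    (Set.ncard_image_le (f := fun c => (t c, ψ c)) (Set.toFinite _))
  rintro ⟨a, y⟩ ⟨ha, -⟩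
  have ha' : a ≠ 0 := ha
  obtain ⟨c, hc, hc0⟩ := h.block (ψ - t.smulRight (a⁻¹ • y))
  rw [LinearMap.sub_apply, LinearMap.smulRight_apply, sub_eq_zero] at hc0
  have htc : t c ≠ 0 := by
    intro h3
    rw [h3, zero_smul] at hc0
    obtain ⟨b, hb⟩ := mem_span_singleton.1 (hψ c hc hc0)
    rw [← hb, map_smul, smul_eq_mul] at h3
    rcases mul_eq_zero.1 h3 with h4 | h4
    · rw [h4, zero_smul] at hb
      rw [← hb] at hc
      exact h.zero hc
    · exact htx h4
  refine ⟨(a * (t c)⁻¹) • c, ⟨h.smul _ (mul_ne_zero ha' (inv_ne_zero htc)) c hc, ?_⟩, ?_⟩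
  · rw [map_smul, smul_eq_mul, mul_assoc, inv_mul_cancel₀ htc, mul_one]
    exact ha'
  · refine Prod.ext ?_ ?_
    · change t ((a * (t c)⁻¹) • c) = a
      rw [map_smul, smul_eq_mul, mul_assoc, inv_mul_cancel₀ htc, mul_one]
    · change ψ ((a * (t c)⁻¹) • c) = y
      rw [map_smul, hc0, smul_smul, smul_smul, mul_assoc a, inv_mul_cancel₀ htc, mul_one,
        mul_inv_cancel₀ ha', one_smul]

theorem exists_max_prs [FiniteDimensional K V] (C : Set V) : ∃ m, prs K C m ∧ ¬ prs K C (m + 1) := by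
  classical
  by_contra hcon
  push Not at hcon
  have h0 : prs K C 0 := ⟨0, fun y => ⟨0, Subsingleton.elim _ _⟩, fun _ _ i => i.elim0⟩
  have hall : ∀ m, prs K C m := fun m => by
    induction m with
    | zero => exact h0
    | succ m ih => exact hcon m ih
  obtain ⟨Θ, hΘ, -⟩ := hall (finrank K V + 1)
  have h1 := LinearMap.finrank_le_finrank_of_surjective hΘ
  rw [Module.finrank_pi_fintype] at h1
  simp only [Module.finrank_prod, finrank_self, Finset.sum_const, Finset.card_univ,
    Fintype.card_fin, smul_eq_mul] at h1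
  omega

/-- The number of elements of the preimage of a set under a surjective linear map. -/
theorem card_preimage [Finite V] {W : Type*} [AddCommGroup W] [Module K W] (g : V →ₗ[K] W)
    (hg : Function.Surjective g) (Z : Set W) :
    (g ⁻¹' Z).ncard = Nat.card (LinearMap.ker g) * Z.ncard := by
  have e : (g ⁻¹' Z) ≃ LinearMap.ker g × Z :=
    { toFun := fun v => (⟨v.1 - Function.surjInv hg (g v.1), by
        rw [LinearMap.mem_ker, map_sub, Function.surjInv_eq hg, sub_self]⟩, ⟨g v.1, v.2⟩)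
      invFun := fun p => ⟨p.1.1 + Function.surjInv hg p.2.1, by
        have h1 : g p.1.1 = 0 := p.1.2
        rw [Set.mem_preimage, map_add, h1, zero_add, Function.surjInv_eq hg]
        exact p.2.2⟩
      left_inv := fun v => by
        apply Subtype.ext
        exact sub_add_cancel _ _
      right_inv := fun p => by
        have h1 : g p.1.1 = 0 := p.1.2
        have h2 : g (p.1.1 + Function.surjInv hg p.2.1) = p.2.1 := by
          rw [map_add, h1, zero_add, Function.surjInv_eq hg]
        apply Prod.ext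
        · apply Subtype.ext
          change p.1.1 + Function.surjInv hg p.2.1 -
            Function.surjInv hg (g (p.1.1 + Function.surjInv hg p.2.1)) = p.1.1
          rw [h2, add_sub_cancel_right]
        · apply Subtype.ext
          exact h2 }
  rw [← Nat.card_coe_set_eq, Nat.card_congr e, Nat.card_prod, Nat.card_coe_set_eq]

theorem card_pairs (K : Type*) [Field K] [Finite K] :
    ({z : K × K | z.1 * z.2 = 0}).ncard = 2 * Nat.card K - 1 := by
  have h1 : {z : K × K | z.1 * z.2 = 0} =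
      (({0} : Set K) ×ˢ (Set.univ : Set K)) ∪ ({a : K | a ≠ 0} ×ˢ ({0} : Set K)) := by
    ext ⟨a, b⟩
    simp only [Set.mem_ofPred_eq, mul_eq_zero, Set.mem_union, Set.mem_prod, Set.mem_singleton_iff,
      Set.mem_univ, and_true]
    tauto
  have hq : 1 < Nat.card K := Finite.one_lt_card
  rw [h1, Set.ncard_union_eq, Set.ncard_prod, Set.ncard_prod, Set.ncard_singleton, Set.ncard_univ,
    card_ne_zero']
  · omega
  · rw [Set.disjoint_left]
    rintro ⟨a, b⟩ h2 h3
    exact h3.1 h2.1

theorem card_pairs_pi (K : Type*) [Field K] [Finite K] (m : ℕ) :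
    ({z : Fin m → K × K | ∀ i, (z i).1 * (z i).2 = 0}).ncard = (2 * Nat.card K - 1) ^ m := by
  have e : {z : Fin m → K × K | ∀ i, (z i).1 * (z i).2 = 0} ≃
      (Fin m → {z : K × K | z.1 * z.2 = 0}) :=
    { toFun := fun z i => ⟨z.1 i, z.2 i⟩
      invFun := fun z => ⟨fun i => (z i).1, fun i => (z i).2⟩
      left_inv := fun _ => rfl
      right_inv := fun _ => rfl }
  rw [← Nat.card_coe_set_eq, Nat.card_congr e, Nat.card_fun, Nat.card_coe_set_eq, Nat.card_fin,
    card_pairs]

end

end MPddf864
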