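import Mathlib

/-!
# MP_ddf864_co : the vector version of the main argument
-/

set_option linter.unusedSectionVars false

namespace MPddf864

open Submodule Module

variable {K V α : Type} [Field K] [Fintype K] [AddCommGroup V] [Module K V]
  [FiniteDimensional K V]

/-- the vector `v c` scaled to have value `1` under `h` -/
noncomputable def nv (v : α → V) (h : V →ₗ[K] K) (c : α) : V := (h (v c))⁻¹ • v c

lemma h_nv {v : α → V} {h : V →ₗ[K] K} {c : α} (hc : h (v c) ≠ 0) : h (nv v h c) = 1 := by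
  unfold nv
  rw [map_smul, smul_eq_mul, inv_mul_cancel₀ hc]

lemma v_eq_nv {v : α → V} {h : V →ₗ[K] K} {c : α} (hc : h (v c) ≠ 0) :
    v c = h (v c) • nv v h c := by
  unfold nv
  rw [smul_smul, mul_inv_cancel₀ hc, one_smul]

/-- The hypotheses of the main argument. -/
structure Conf (v : α → V) (E : Set α) (k : ℕ) (h : V →ₗ[K] K) (C : Set α) : Prop where
  fin : E.Finite
  block : ∀ φ : V →ₗ[K] (Fin k → K), ∃ e ∈ E, φ (v e) = 0
  restr : ∀ D ⊂ E, ∃ φ : V →ₗ[K] (Fin k → K), ∀ e ∈ D, φ (v e) ≠ 0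
  tang : ∀ T ⊂ E, T.Nonempty → (∀ e ∈ E, v e ∈ span K (v '' T) → e ∈ T) →
    ∃ φ : V →ₗ[K] (Fin k → K), ∀ e ∈ E, φ (v e) = 0 ↔ e ∈ T
  simple : ∀ e ∈ E, ∀ f ∈ E, e ≠ f → v e ∉ span K {v f}
  bond : ∀ e ∈ E, e ∈ C ↔ h (v e) ≠ 0
  sub : C ⊆ E
  ne : C.Nonempty
  nsp : ∃ e ∈ E, v e ∉ span K (v '' C)

namespace Conf

variable {v : α → V} {E : Set α} {k : ℕ} {h : V →ₗ[K] K} {C : Set α}

lemma hC (H : Conf v E k h C) {c : α} (hc : c ∈ C) : h (v c) ≠ 0 :=
  (H.bond c (H.sub hc)).1 hc

/-- a good map: nonzero on `E \ C` -/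
def Good (v : α → V) (E C : Set α) (φ : V →ₗ[K] (Fin k → K)) : Prop :=
  ∀ e ∈ E, e ∉ C → φ (v e) ≠ 0

/-- good maps take all values on the normalised vectors of the bond -/
lemma good_surj (H : Conf v E k h C) {φ : V →ₗ[K] (Fin k → K)} (hφ : Good v E C φ)
    (s : Fin k → K) : ∃ c ∈ C, φ (nv v h c) = s := by
  obtain ⟨e, he, h0⟩ := H.block (φ - h.smulRight s)
  rw [LinearMap.sub_apply, LinearMap.smulRight_apply, sub_eq_zero] at h0
  by_cases hc : e ∈ C
  · refine ⟨e, hc, ?_⟩
    unfold nv
    rw [map_smul, h0, smul_smul, inv_mul_cancel₀ (H.hC hc), one_smul]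
  · exfalso
    have h1 : h (v e) = 0 := by
      by_contra h1
      exact hc ((H.bond e he).2 h1)
    rw [h1, zero_smul] at h0
    exact hφ e he hc h0

/-- there is a map which is nonzero on all elements of the span of the bond -/
lemma exists_span (H : Conf v E k h C) : ∃ φ : V →ₗ[K] (Fin k → K), ∀ e ∈ E,
    v e ∈ span K (v '' C) → φ (v e) ≠ 0 := by
  obtain ⟨e0, he0, he1⟩ := H.nsp
  obtain ⟨φ, hφ⟩ := H.restr {e ∈ E | v e ∈ span K (v '' C)} (by
    refine ⟨fun e he => he.1, fun hsub => ?_⟩
    exact he1 (hsub he0).2)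
  exact ⟨φ, fun e he hs => hφ e ⟨he, hs⟩⟩

lemma exists_good (H : Conf v E k h C) : ∃ φ : V →ₗ[K] (Fin k → K), Good v E C φ := by
  obtain ⟨c, hc⟩ := H.ne
  obtain ⟨φ, hφ⟩ := H.restr (E \ C) (by
    refine ⟨fun e he => he.1, fun hsub => ?_⟩
    exact (hsub (H.sub hc)).2 hc)
  exact ⟨φ, fun e he hc => hφ e ⟨he, hc⟩⟩

lemma nv_mem (v : α → V) (h : V →ₗ[K] K) {C : Set α} {c : α} (hc : c ∈ C) :
    nv v h c ∈ span K (v '' C) :=
  Submodule.smul_mem _ _ (subset_span ⟨c, hc, rfl⟩)

/-- normalised vectors of different elements are different -/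
lemma nv_inj (H : Conf v E k h C) {c c' : α} (hc : c ∈ C) (hc' : c' ∈ C)
    (he : nv v h c = nv v h c') : c = c' := by
  by_contra hne
  apply H.simple c (H.sub hc) c' (H.sub hc') hne
  rw [v_eq_nv (H.hC hc), he]
  unfold nv
  rw [smul_smul]
  exact Submodule.smul_mem _ _ (mem_span_singleton_self _)

/-- `h` vanishes on differences of normalised vectors; an element of `span (v '' D)` in the kernel
of `h` lies in the span of the differences. -/
lemma mem_diff {D : Set α} (hD : ∀ c ∈ D, h (v c) ≠ 0) {c0 : α} {x : V}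
    (hx : x ∈ span K (v '' D)) :
    x - h x • nv v h c0 ∈ span K {y | ∃ c ∈ D, y = nv v h c - nv v h c0} := by
  induction hx using Submodule.span_induction with
  | mem x hx =>
    obtain ⟨c, hc, rfl⟩ := hx
    have h1 : v c - h (v c) • nv v h c0 = h (v c) • (nv v h c - nv v h c0) := by
      rw [smul_sub, ← v_eq_nv (hD c hc)]
    rw [h1]
    exact Submodule.smul_mem _ _ (subset_span ⟨c, hc, rfl⟩)
  | zero => simp
  | add x y _ _ hx hy =>
    have h1 : x + y - h (x + y) • nv v h c0 =
        (x - h x • nv v h c0) + (y - h y • nv v h c0) := by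
      rw [map_add, add_smul]; abel
    rw [h1]
    exact Submodule.add_mem _ hx hy
  | smul a x _ hx =>
    have h1 : a • x - h (a • x) • nv v h c0 = a • (x - h x • nv v h c0) := by
      rw [map_smul, smul_eq_mul, smul_sub, smul_smul]
    rw [h1]
    exact Submodule.smul_mem _ _ hx

/-- Let `φ` be nonzero on the elements in the span of the bond and constant on the normalised
vectors of `D ⊆ C`, `D` nonempty. Then some good map is constant on them, too. -/
lemma fiber (H : Conf v E k h C) {φ : V →ₗ[K] (Fin k → K)}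
    (hφ : ∀ e ∈ E, v e ∈ span K (v '' C) → φ (v e) ≠ 0) {D : Set α} (hD : D ⊆ C)
    (hne : D.Nonempty) {s : Fin k → K} (hs : ∀ c ∈ D, φ (nv v h c) = s) :
    ∃ ψ : V →ₗ[K] (Fin k → K), Good v E C ψ ∧ ∀ c ∈ D, ψ (nv v h c) = 0 := by
  obtain ⟨c0, hc0⟩ := hne
  have hTC : {e ∈ E | v e ∈ span K (v '' D)} ⊆ C := by
    intro e he
    by_contra hc
    have h1 : h (v e) = 0 := by
      by_contra h1
      exact hc ((H.bond e he.1).2 h1)
    have h2 := mem_diff (h := h) (fun c hc => H.hC (hD hc)) (c0 := c0) he.2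
    rw [h1, zero_smul, sub_zero] at h2
    have h3 : span K {y | ∃ c ∈ D, y = nv v h c - nv v h c0} ≤ LinearMap.ker φ := by
      rw [span_le]
      rintro y ⟨c, hc, rfl⟩
      simp only [SetLike.mem_coe, LinearMap.mem_ker, map_sub, hs c hc, hs c0 hc0, sub_self]
    exact hφ e he.1 (span_mono (Set.image_mono hD) he.2) (h3 h2)
  obtain ⟨e0, he0, he1⟩ := H.nsp
  obtain ⟨ψ, hψ⟩ := H.tang {e ∈ E | v e ∈ span K (v '' D)} (by
      refine ⟨fun e he => he.1, fun hsub => ?_⟩
      exact he1 (span_mono (Set.image_mono hD) (hsub he0).2))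
    ⟨c0, H.sub (hD hc0), subset_span ⟨c0, hc0, rfl⟩⟩ (by
      intro e he hm
      refine ⟨he, ?_⟩
      have : span K (v '' {e ∈ E | v e ∈ span K (v '' D)}) ≤ span K (v '' D) := by
        rw [span_le]
        rintro _ ⟨f, hf, rfl⟩
        exact hf.2
      exact this hm)
  refine ⟨ψ, fun e he hc h0 => hc (hTC ((hψ e he).1 h0)), fun c hc => ?_⟩
  unfold nv
  rw [map_smul, (hψ c (H.sub (hD hc))).2 ⟨H.sub (hD hc), subset_span ⟨c, hc, rfl⟩⟩, smul_zero]

/-- a bond which does not span has more than `q^k` elements -/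
theorem card_lt (H : Conf v E k h C) : Fintype.card K ^ k < C.ncard := by
  classical
  have hCf : C.Finite := H.fin.subset H.sub
  have : Fintype C := hCf.fintype
  by_contra hle
  push Not at hle
  rw [Set.ncard_eq_toFinset_card', Set.toFinset_card] at hle
  have hcard : Fintype.card (Fin k → K) = Fintype.card K ^ k := by
    rw [Fintype.card_fun, Fintype.card_fin]
  -- good maps are injective on the bond
  have hinj : ∀ ψ : V →ₗ[K] (Fin k → K), Good v E C ψ →
      Function.Injective (fun c : C => ψ (nv v h c)) := by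
    intro ψ hψ
    have hs : Function.Surjective (fun c : C => ψ (nv v h c)) := by
      intro s
      obtain ⟨c, hc, hcs⟩ := H.good_surj hψ s
      exact ⟨⟨c, hc⟩, hcs⟩
    have hc1 : Fintype.card C = Fintype.card (Fin k → K) :=
      le_antisymm (by rw [hcard]; exact hle) (Fintype.card_le_of_surjective _ hs)
    exact ((Fintype.bijective_iff_surjective_and_card _).2 ⟨hs, hc1⟩).1
  obtain ⟨φ, hφ⟩ := H.exists_span
  -- so is `φ`
  have hφi : Function.Injective (fun c : C => φ (nv v h c)) := by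
    rintro ⟨c, hc⟩ ⟨c', hc'⟩ he
    simp only at he
    obtain ⟨ψ, hψ, hψ0⟩ := H.fiber hφ (D := {c, c'}) (by
        rintro x (rfl | hx)
        · exact hc
        · rw [Set.mem_singleton_iff.1 hx]; exact hc') ⟨c, by simp⟩ (s := φ (nv v h c)) (by
        rintro x (rfl | hx)
        · rfl
        · rw [Set.mem_singleton_iff.1 hx, he])
    exact hinj ψ hψ (by
      simp only
      rw [hψ0 c (by simp), hψ0 c' (by simp)])
  obtain ⟨ψ, hψ⟩ := H.exists_good
  have hsψ : Function.Surjective (fun c : C => ψ (nv v h c)) := by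
    intro s
    obtain ⟨c, hc, hcs⟩ := H.good_surj hψ s
    exact ⟨⟨c, hc⟩, hcs⟩
  have hc1 : Fintype.card C = Fintype.card (Fin k → K) :=
    le_antisymm (by rw [hcard]; exact hle) (Fintype.card_le_of_surjective _ hsψ)
  have hφs := ((Fintype.bijective_iff_injective_and_card _).2 ⟨hφi, hc1⟩).2
  obtain ⟨⟨c, hc⟩, h0⟩ := hφs 0
  simp only at h0
  apply hφ c (H.sub hc) (subset_span ⟨c, hc, rfl⟩)
  rw [v_eq_nv (H.hC hc), map_smul, h0, smul_zero]

/-- a bond which does not span has rank at least `k + 3` -/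
theorem rank_ge (H : Conf v E k h C) : k + 3 ≤ finrank K (span K (v '' C)) := by
  classical
  have hCf : C.Finite := H.fin.subset H.sub
  have : Fintype C := hCf.fintype
  by_contra hlt
  push Not at hlt
  have hcardC := H.card_lt
  rw [Set.ncard_eq_toFinset_card', Set.toFinset_card] at hcardC
  have hcard : Fintype.card (Fin k → K) = Fintype.card K ^ k := by
    rw [Fintype.card_fun, Fintype.card_fin]
  obtain ⟨c0, hc0⟩ := H.ne
  -- the space of differences
  obtain ⟨U, hU⟩ : ∃ U : Submodule K V,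
    U = span K {y | ∃ c ∈ C, y = nv v h c - nv v h c0} := ⟨_, rfl⟩
  have hUd : ∀ c ∈ C, nv v h c - nv v h c0 ∈ U := by
    intro c hc
    rw [hU]
    exact subset_span ⟨c, hc, rfl⟩
  have hUd2 : ∀ c ∈ C, ∀ c' ∈ C, nv v h c - nv v h c' ∈ U := by
    intro c hc c' hc'
    have h1 := U.sub_mem (hUd c hc) (hUd c' hc')
    have h2 : nv v h c - nv v h c0 - (nv v h c' - nv v h c0) = nv v h c - nv v h c' := by abel
    rwa [h2] at h1
  have hUh : ∀ x ∈ U, h x = 0 := by
    intro x hx
    have h1 : U ≤ LinearMap.ker h := by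
      rw [hU, span_le]
      rintro y ⟨c, hc, rfl⟩
      simp only [SetLike.mem_coe, LinearMap.mem_ker, map_sub, h_nv (H.hC hc),
        h_nv (H.hC hc0), sub_self]
    exact h1 hx
  have hUP : U < span K (v '' C) := by
    refine lt_of_le_of_ne ?_ ?_
    · rw [hU, span_le]
      rintro y ⟨c, hc, rfl⟩
      exact Submodule.sub_mem _ (nv_mem v h hc) (nv_mem v h hc0)
    · intro he
      have h1 : nv v h c0 ∈ U := by rw [he]; exact nv_mem v h hc0
      have h2 := hUh _ h1
      rw [h_nv (H.hC hc0)] at h2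
      exact one_ne_zero h2
  have hUr : finrank K U ≤ k + 1 := by
    have := Submodule.finrank_lt_finrank_of_lt hUP
    omega
  -- kernels of good maps on `U` have dimension at most one
  have hker : ∀ ψ : V →ₗ[K] (Fin k → K), Good v E C ψ → ∀ x ∈ U, x ≠ 0 → ψ x = 0 →
      ∀ y ∈ U, ψ y = 0 → ∃ t : K, y = t • x := by
    intro ψ hψ x hx hx0 hψx y hy hψy
    have hs : Function.Surjective (ψ.domRestrict U) := by
      intro s
      obtain ⟨c, hc, hcs⟩ := H.good_surj hψ (s + ψ (nv v h c0))
      refine ⟨⟨nv v h c - nv v h c0, hUd c hc⟩, ?_⟩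
      rw [LinearMap.domRestrict_apply, map_sub, hcs]
      simp
    have h1 := LinearMap.finrank_range_add_finrank_ker (ψ.domRestrict U)
    rw [LinearMap.range_eq_top.2 hs, finrank_top, finrank_fin_fun] at h1
    have h2 : finrank K (LinearMap.ker (ψ.domRestrict U)) ≤ 1 := by omega
    obtain ⟨w, hw⟩ := finrank_le_one_iff.1 h2
    have hxk : (⟨x, hx⟩ : U) ∈ LinearMap.ker (ψ.domRestrict U) := by
      rw [LinearMap.mem_ker, LinearMap.domRestrict_apply]; exact hψx
    have hyk : (⟨y, hy⟩ : U) ∈ LinearMap.ker (ψ.domRestrict U) := by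
      rw [LinearMap.mem_ker, LinearMap.domRestrict_apply]; exact hψy
    obtain ⟨a, ha⟩ := hw ⟨⟨x, hx⟩, hxk⟩
    obtain ⟨b, hb⟩ := hw ⟨⟨y, hy⟩, hyk⟩
    have ha' : a • ((w : U) : V) = x := by
      have := congrArg Subtype.val (congrArg Subtype.val ha)
      simpa using this
    have hb' : b • ((w : U) : V) = y := by
      have := congrArg Subtype.val (congrArg Subtype.val hb)
      simpa using this
    have ha0 : a ≠ 0 := by
      rintro rfl
      rw [zero_smul] at ha'
      exact hx0 ha'.symm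
    refine ⟨b * a⁻¹, ?_⟩
    rw [← ha', ← hb', smul_smul, mul_assoc, inv_mul_cancel₀ ha0, mul_one]
  obtain ⟨φ, hφ⟩ := H.exists_span
  -- fibres of `φ` have at most `q` elements
  have hfib : ∀ s : Fin k → K,
      (Finset.univ.filter (fun c : C => φ (nv v h c) = s)).card ≤ Fintype.card K := by
    intro s
    rcases (Finset.univ.filter (fun c : C => φ (nv v h c) = s)).eq_empty_or_nonempty with h0 | h0
    · rw [h0]; simp
    obtain ⟨c1, hc1⟩ := h0
    rw [Finset.mem_filter] at hc1
    obtain ⟨ψ, hψ, hψ0⟩ := H.fiber hφ (D := {c ∈ C | φ (nv v h c) = s}) (fun c hc => hc.1)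
      ⟨c1, c1.2, hc1.2⟩ (s := s) (fun c hc => hc.2)
    by_cases hall : ∃ c2 : C, c2 ∈ Finset.univ.filter (fun c : C => φ (nv v h c) = s) ∧ c2 ≠ c1
    · obtain ⟨c2, hc2, hne⟩ := hall
      rw [Finset.mem_filter] at hc2
      have hx0 : nv v h c2 - nv v h c1 ≠ 0 := by
        intro h1
        apply hne
        apply Subtype.ext
        exact H.nv_inj c2.2 c1.2 (sub_eq_zero.1 h1)
      have hex : ∀ c : C, c ∈ Finset.univ.filter (fun c : C => φ (nv v h c) = s) →
          ∃ t : K, nv v h c - nv v h c1 = t • (nv v h c2 - nv v h c1) := by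
        intro c hc
        rw [Finset.mem_filter] at hc
        refine hker ψ hψ _ (hUd2 _ c2.2 _ c1.2) hx0 ?_ _ (hUd2 _ c.2 _ c1.2) ?_
        · rw [map_sub, hψ0 c2 ⟨c2.2, hc2.2⟩, hψ0 c1 ⟨c1.2, hc1.2⟩, sub_self]
        · rw [map_sub, hψ0 c ⟨c.2, hc.2⟩, hψ0 c1 ⟨c1.2, hc1.2⟩, sub_self]
      choose! t ht using hex
      have hle := Finset.card_le_card_of_injOn (s := Finset.univ.filter
        (fun c : C => φ (nv v h c) = s)) (t := (Finset.univ : Finset K)) t
        (fun c _ => Finset.mem_coe.2 (Finset.mem_univ _)) (by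
          intro c hc c' hc' he
          have h1 := ht c hc
          rw [he, ← ht c' hc'] at h1
          apply Subtype.ext
          exact H.nv_inj c.2 c'.2 (sub_left_injective h1))
      rwa [Finset.card_univ] at hle
    · push Not at hall
      have hsub : Finset.univ.filter (fun c : C => φ (nv v h c) = s) ⊆ {c1} := by
        intro c hc
        rw [Finset.mem_singleton]
        exact hall c hc
      exact (Finset.card_le_card hsub).trans (by
        rw [Finset.card_singleton]
        exact Fintype.card_pos)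
  -- `φ` maps `U` onto everything
  have hsurj : Submodule.map φ U = ⊤ := by
    by_contra hne
    have hfr : finrank K (Submodule.map φ U) < k := by
      have := Submodule.finrank_lt hne
      rwa [finrank_fin_fun] at this
    have h1 := Finset.card_le_mul_card_image (f := fun c : C => φ (nv v h c))
      (Finset.univ : Finset C) (Fintype.card K) (fun a _ => hfib a)
    have h2 : (Finset.univ.image (fun c : C => φ (nv v h c))).card ≤
        Nat.card (Submodule.map φ U) := by
      have : Fintype (Submodule.map φ U) := Fintype.ofFinite _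
      rw [Nat.card_eq_fintype_card]
      refine Finset.card_le_card_of_injOn (t := (Finset.univ : Finset (Submodule.map φ U)))
        (fun y => if hy : y - φ (nv v h c0) ∈ Submodule.map φ U then
          ⟨y - φ (nv v h c0), hy⟩ else 0) (fun _ _ => Finset.mem_coe.2 (Finset.mem_univ _)) ?_
      intro y hy y' hy' he
      have hm : ∀ z ∈ (Finset.univ.image (fun c : C => φ (nv v h c)) : Finset (Fin k → K)),
          z - φ (nv v h c0) ∈ Submodule.map φ U := by
        intro z hz
        rw [Finset.mem_image] at hz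
        obtain ⟨c, _, rfl⟩ := hz
        rw [← map_sub]
        exact Submodule.mem_map_of_mem (hUd c c.2)
      have e1 := hm y hy
      have e2 := hm y' hy'
      simp only [dif_pos e1, dif_pos e2] at he
      exact sub_left_injective (congrArg Subtype.val he)
    have h3 : Nat.card (Submodule.map φ U) = Fintype.card K ^ finrank K (Submodule.map φ U) := by
      have : Fintype (Submodule.map φ U) := Fintype.ofFinite _
      rw [Nat.card_eq_fintype_card, Module.card_eq_pow_finrank (K := K)]
    have h4 : Fintype.card K ^ finrank K (Submodule.map φ U) ≤ Fintype.card K ^ (k - 1) :=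
      Nat.pow_le_pow_right Fintype.card_pos (by omega)
    have h5 : Fintype.card K * Fintype.card K ^ (k - 1) = Fintype.card K ^ k := by
      rw [← pow_succ']
      congr 1
      omega
    rw [Finset.card_univ] at h1
    have h6 : Fintype.card C ≤ Fintype.card K ^ k := by
      calc Fintype.card C ≤ Fintype.card K * (Finset.univ.image
            (fun c : C => φ (nv v h c))).card := h1
        _ ≤ Fintype.card K * Fintype.card K ^ (k - 1) :=
            Nat.mul_le_mul_left _ (h2.trans (h3.le.trans h4))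
        _ = Fintype.card K ^ k := h5
    omega
  -- two elements in one fibre
  obtain ⟨c1, c2, hne, he⟩ := Fintype.exists_ne_map_eq_of_card_lt
    (fun c : C => φ (nv v h c)) (by rw [hcard]; exact hcardC)
  obtain ⟨ψ, hψ, hψ0⟩ := H.fiber hφ (D := {(c1 : α), (c2 : α)}) (by
      rintro x (rfl | hx)
      · exact c1.2
      · rw [Set.mem_singleton_iff.1 hx]; exact c2.2) ⟨c1, by simp⟩ (s := φ (nv v h c1)) (by
      rintro x (rfl | hx)
      · rfl
      · rw [Set.mem_singleton_iff.1 hx, he])
  have hx0 : nv v h c1 - nv v h c2 ≠ 0 := by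
    intro h1
    exact hne (Subtype.ext (H.nv_inj c1.2 c2.2 (sub_eq_zero.1 h1)))
  have hneg : -φ (nv v h c0) ∈ Submodule.map φ U := by rw [hsurj]; trivial
  obtain ⟨u, hu, hu0⟩ := hneg
  obtain ⟨c, hc, hcs⟩ := H.good_surj hψ (ψ (nv v h c0 + u))
  obtain ⟨t, ht⟩ := hker ψ hψ _ (hUd2 _ c1.2 _ c2.2) hx0 (by
      rw [map_sub, hψ0 c1 (by simp), hψ0 c2 (by simp), sub_self])
    (nv v h c - nv v h c0 - u) (U.sub_mem (hUd c hc) hu) (by
      rw [sub_sub, map_sub, hcs, sub_self])
  have h7 : φ (nv v h c) = 0 := by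
    have h8 : φ (nv v h c - nv v h c0 - u) = 0 := by
      rw [ht, map_smul, map_sub, he, sub_self, smul_zero]
    rw [map_sub, map_sub, hu0] at h8
    have h9 : φ (nv v h c) - φ (nv v h c0) - -φ (nv v h c0) = φ (nv v h c) := by abel
    rwa [h9] at h8
  apply hφ c (H.sub hc) (subset_span ⟨c, hc, rfl⟩)
  rw [v_eq_nv (H.hC hc), map_smul, h7, smul_zero]

end Conf

end MPddf864
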