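import Pool.Agent.Lib.MP_ddf864_co.Crit
import Pool.Agent.Lib.MP_ddf864_co.Vec

/-!
# MP_ddf864_co : from matroids to vectors
-/

set_option linter.unusedSectionVars false

namespace MPddf864

open Submodule Module

section Rank

variable {K : Type} [Field K] [Fintype K] {α : Type} [Fintype α] {n : ℕ}
  {v : α → Fin n → K}

/-- rank of a spanned set from an independent set -/
lemma vr_eq_ncard {J X : Set α} (hJ : LinearIndepOn K v J) (hJX : J ⊆ X)
    (hX : ∀ x ∈ X, v x ∈ span K (v '' J)) : vr v X = J.ncard := by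
  classical
  have h1 : span K (v '' X) = span K (v '' J) := by
    apply le_antisymm
    · rw [span_le]
      rintro _ ⟨x, hx, rfl⟩
      exact hX x hx
    · exact span_mono (Set.image_mono hJX)
  have : Fintype J := Fintype.ofFinite _
  unfold vr
  rw [h1, Set.image_eq_range, finrank_span_eq_card (b := fun i : J => v i) hJ,
    Set.ncard_eq_toFinset_card', Set.toFinset_card]

variable {M : Matroid α} (hv : ∀ I ⊆ M.E, M.Indep I ↔ LinearIndepOn K v I)

include hv

lemma mem_span_of_not_indep {J : Set α} (hJ : M.Indep J) {x : α} (hx : x ∈ M.E)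
    (h : ¬ M.Indep (insert x J) ∨ x ∈ J) : v x ∈ span K (v '' J) := by
  rcases h with h | h
  · by_cases hxJ : x ∈ J
    · exact subset_span ⟨x, hxJ, rfl⟩
    · by_contra hn
      apply h
      rw [hv _ (Set.insert_subset hx hJ.subset_ground), linearIndepOn_insert hxJ]
      exact ⟨(hv _ hJ.subset_ground).1 hJ, hn⟩
  · exact subset_span ⟨x, h, rfl⟩

lemma mem_closure_iff {S : Set α} (hS : S ⊆ M.E) {e : α} (he : e ∈ M.E) :
    e ∈ M.closure S ↔ v e ∈ span K (v '' S) := by
  obtain ⟨I, hI⟩ := M.exists_isBasis S hS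
  have hsp : span K (v '' S) = span K (v '' I) := by
    apply le_antisymm
    · rw [span_le]
      rintro _ ⟨x, hx, rfl⟩
      refine mem_span_of_not_indep hv hI.indep (hS hx) ?_
      by_cases hxI : x ∈ I
      · exact Or.inr hxI
      · left
        intro hind
        exact hxI (hI.mem_of_insert_indep hx hind)
    · exact span_mono (Set.image_mono hI.subset)
  rw [← hI.closure_eq_closure, hI.indep.mem_closure_iff', hsp]
  constructor
  · rintro ⟨_, h2⟩
    refine mem_span_of_not_indep hv hI.indep he ?_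
    by_cases h3 : M.Indep (insert e I)
    · exact Or.inr (h2 h3)
    · exact Or.inl h3
  · intro h
    refine ⟨he, fun hind => ?_⟩
    by_contra hn
    rw [hv _ hind.subset_ground, linearIndepOn_insert hn] at hind
    exact hind.2 h

/-- rank of the contraction -/
lemma rk_contract {T : Set α} (hT : T ⊆ M.E) (Dl : Set α) (X : Set α)
    (hX : X ⊆ ((M.contract T).delete Dl).E) :
    rk ((M.contract T).delete Dl) X + vr v T = vr v (X ∪ T) := by
  classical
  obtain ⟨B, hB⟩ := M.exists_isBasis T hT
  obtain ⟨I, hI⟩ := ((M.contract T).delete Dl).exists_isBasis X hX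
  have hE : ((M.contract T).delete Dl).E = (M.E \ T) \ Dl := rfl
  have hind : ∀ J : Set α, ((M.contract T).delete Dl).Indep J ↔
      (M.Indep (J ∪ B) ∧ Disjoint T J) ∧ Disjoint J Dl := by
    intro J
    rw [Matroid.delete_indep_iff, hB.contract_indep_iff]
  obtain ⟨⟨hI1, hI2⟩, hI3⟩ := (hind I).1 hI.indep
  have hBsp : ∀ t ∈ T, v t ∈ span K (v '' B) := by
    intro t ht
    refine mem_span_of_not_indep hv hB.indep (hT ht) ?_
    by_cases htB : t ∈ B
    · exact Or.inr htB
    · left
      intro h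
      exact htB (hB.mem_of_insert_indep ht h)
  have hT1 : vr v T = B.ncard :=
    vr_eq_ncard ((hv _ hB.indep.subset_ground).1 hB.indep) hB.subset hBsp
  have hXT : vr v (X ∪ T) = (I ∪ B).ncard := by
    refine vr_eq_ncard ((hv _ hI1.subset_ground).1 hI1)
      (Set.union_subset_union hI.subset hB.subset) ?_
    rintro x (hx | hx)
    · have hxE := hX hx
      rw [hE] at hxE
      refine mem_span_of_not_indep hv hI1 hxE.1.1 ?_
      by_cases hxI : x ∈ I
      · exact Or.inr (Or.inl hxI)
      · left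
        intro h
        apply hxI
        refine hI.mem_of_insert_indep hx ((hind _).2 ⟨⟨?_, ?_⟩, ?_⟩)
        · rwa [Set.insert_union]
        · rw [Set.disjoint_insert_right]
          exact ⟨hxE.1.2, hI2⟩
        · rw [Set.disjoint_insert_left]
          exact ⟨hxE.2, hI3⟩
    · exact span_mono (Set.image_mono Set.subset_union_right) (hBsp x hx)
  have hdis : Disjoint I B := (hI2.mono_left hB.subset).symm
  rw [hT1, hXT, Set.ncard_union_eq hdis]
  unfold rk
  rw [← hI.encard_eq_eRk]
  rfl

lemma rk_eq {X : Set α} (hX : X ⊆ M.E) : rk M X = vr v X := by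
  have h1 := rk_contract hv (T := ∅) (Set.empty_subset _) ∅ X (by simpa using hX)
  have h2 : vr v (∅ : Set α) = 0 := by
    unfold vr
    rw [Set.image_empty, span_empty, finrank_bot]
  simpa [h2] using h1

end Rank

section Tang

variable {K : Type} [Field K] [Fintype K] {α : Type} [Fintype α] {n : ℕ}
  {v : α → Fin n → K} {M : Matroid α} {k : ℕ}

/-- an injective linear map of coordinate spaces -/
lemma exists_inj {j k : ℕ} (hjk : j ≤ k) : ∃ g : (Fin j → K) →ₗ[K] (Fin k → K),
    ∀ x, g x = 0 → x = 0 := by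
  refine ⟨LinearMap.pi (fun i : Fin k => if h : (i : ℕ) < j then
    LinearMap.proj (⟨i, h⟩ : Fin j) else 0), fun x hx => ?_⟩
  funext i
  have h1 := congrFun hx ⟨i, lt_of_lt_of_le i.2 hjk⟩
  simpa [LinearMap.pi_apply] using h1

lemma not_loop_of_simple {N : Matroid α} (hN : IsSimple N) : ¬ ∃ e, N.IsLoop e := by
  rintro ⟨e, he⟩
  have h1 := hN e he.mem_ground e he.mem_ground
  rw [Set.pair_eq_singleton] at h1
  exact he.not_indep_of_mem (Set.mem_singleton e) h1

lemma exists_of_critExp_le {N : Matroid α} {q : ℕ} (hN : IsSimple N) (h : critExp N q ≤ k) :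
    ∃ j ≤ k, 0 < charPoly N ((q : ℤ) ^ j) := by
  unfold critExp at h
  rw [if_neg (not_loop_of_simple hN)] at h
  have hne : {c : ℕ∞ | ∃ j : ℕ, c = j ∧ 0 < charPoly N ((q : ℤ) ^ j)}.Nonempty := by
    by_contra hne
    rw [Set.not_nonempty_iff_eq_empty] at hne
    rw [hne, sInf_empty] at h
    exact absurd h (by simp)
  obtain ⟨j, hj, hj2⟩ := csInf_mem hne
  refine ⟨j, ?_, hj2⟩
  rw [hj] at h
  exact_mod_cast h

variable (hM : IsTangentialBlock K k M) (hv : ∀ I ⊆ M.E, M.Indep I ↔ LinearIndepOn K v I)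

include hM hv

/-- maps from simple proper minors -/
lemma coloring {T D : Set α} (hT : T ⊆ M.E) (hD : D ⊆ M.E) (hTD : Disjoint T D)
    (hpr : T ∪ D ≠ M.E ∨ T.Nonempty)
    (h1 : ∀ e ∈ D, v e ∉ span K (v '' T))
    (h2 : ∀ e ∈ D, ∀ f ∈ D, e ≠ f → v f ∉ span K (v '' (insert e T))) :
    ∃ φ : (Fin n → K) →ₗ[K] (Fin k → K), (∀ t ∈ T, φ (v t) = 0) ∧ ∀ e ∈ D, φ (v e) ≠ 0 := by
  classical
  obtain ⟨N, hN⟩ : ∃ N, N = (M.contract T).delete ((M.E \ T) \ D) := ⟨_, rfl⟩
  have hNE : N.E = D := by
    rw [hN]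
    change (M.E \ T) \ ((M.E \ T) \ D) = D
    ext e
    constructor
    · rintro ⟨h3, h4⟩
      by_contra h5
      exact h4 ⟨h3, h5⟩
    · intro he
      exact ⟨⟨hD he, fun ht => Set.disjoint_left.1 hTD ht he⟩, fun h3 => h3.2 he⟩
  have hminor : N.IsStrictMinor M := by
    rw [Matroid.isStrictMinor_iff_isMinor_ne]
    refine ⟨by rw [hN]; exact M.contract_delete_isMinor _ _, ?_⟩
    intro he
    have hE : D = M.E := by rw [← hNE, he]
    rcases hpr with h | ⟨t, ht⟩
    · apply h
      rw [hE]
      exact Set.union_eq_right.2 hT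
    · exact Set.disjoint_left.1 hTD ht (by rw [hE]; exact hT ht)
  obtain ⟨B, hB⟩ := M.exists_isBasis T hT
  have hBT : span K (v '' B) ≤ span K (v '' T) := span_mono (Set.image_mono hB.subset)
  have hsimple : IsSimple N := by
    intro e he f hf
    rw [hNE] at he hf
    rw [hN, Matroid.delete_indep_iff, hB.contract_indep_iff]
    have hTe : e ∉ T := fun h => Set.disjoint_left.1 hTD h he
    have hTf : f ∉ T := fun h => Set.disjoint_left.1 hTD h hf
    have heB : e ∉ B := fun h => hTe (hB.subset h)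
    have hfB : f ∉ B := fun h => hTf (hB.subset h)
    have hBi := (hv _ hB.indep.subset_ground).1 hB.indep
    have hei : LinearIndepOn K v (insert e B) := by
      rw [linearIndepOn_insert heB]
      exact ⟨hBi, fun h => h1 e he (hBT h)⟩
    refine ⟨⟨?_, ?_⟩, ?_⟩
    · rw [hv]
      · by_cases hef : f = e
        · subst hef
          rw [Set.pair_eq_singleton, Set.singleton_union]
          exact hei
        · have h3 : ({e, f} : Set α) ∪ B = insert f (insert e B) := by
            ext x
            simp only [Set.mem_union, Set.mem_insert_iff, Set.mem_singleton_iff]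
            tauto
          rw [h3, linearIndepOn_insert (by
            rw [Set.mem_insert_iff]
            push Not
            exact ⟨hef, hfB⟩)]
          refine ⟨hei, fun h => h2 e he f hf (Ne.symm hef) ?_⟩
          exact span_mono (Set.image_mono (Set.insert_subset_insert hB.subset)) h
      · rintro x (hx | hx)
        · rcases hx with rfl | hx
          · exact hD he
          · rw [Set.mem_singleton_iff.1 hx]; exact hD hf
        · exact hB.indep.subset_ground hx
    · rw [Set.disjoint_right]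
      rintro x (rfl | hx)
      · exact hTe
      · rw [Set.mem_singleton_iff.1 hx]; exact hTf
    · rw [Set.disjoint_left]
      rintro x (rfl | hx)
      · exact fun h => h.2 he
      · rw [Set.mem_singleton_iff.1 hx]; exact fun h => h.2 hf
  obtain ⟨j, hj, hpos⟩ := exists_of_critExp_le hsimple (hM.minors N hminor hsimple)
  rw [charPoly_pos_iff N v T (by
    intro X hX
    rw [hN] at hX ⊢
    exact rk_contract hv hT _ X hX) j] at hpos
  obtain ⟨φ, hφT, hφN⟩ := hpos
  obtain ⟨g, hg⟩ := exists_inj (K := K) hj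
  refine ⟨g.comp φ, fun t ht => by rw [LinearMap.comp_apply, hφT t ht, map_zero],
    fun e he h => ?_⟩
  rw [LinearMap.comp_apply] at h
  exact hφN e (by rw [hNE]; exact he) (hg _ h)

lemma conf_block : ∀ φ : (Fin n → K) →ₗ[K] (Fin k → K), ∃ e ∈ M.E, φ (v e) = 0 := by
  intro φ
  by_contra hcon
  push Not at hcon
  have h2 : vr v (∅ : Set α) = 0 := by
    unfold vr
    rw [Set.image_empty, span_empty, finrank_bot]
  have h3 : 0 < charPoly M ((Fintype.card K : ℤ) ^ k) := by
    rw [charPoly_pos_iff M v ∅ (by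
      intro X hX
      rw [h2, add_zero, Set.union_empty, rk_eq hv hX]) k]
    exact ⟨φ, fun t ht => absurd ht (Set.notMem_empty t), hcon⟩
  have h4 := hM.block
  unfold critExp at h4
  rw [if_neg (not_loop_of_simple hM.simple)] at h4
  have h5 : sInf {c : ℕ∞ | ∃ j : ℕ, c = j ∧ 0 < charPoly M ((Fintype.card K : ℤ) ^ j)} ≤ k :=
    sInf_le ⟨k, rfl, h3⟩
  exact absurd h5 (not_le.2 h4)

lemma simple_vec : ∀ e ∈ M.E, ∀ f ∈ M.E, e ≠ f → v e ∉ span K {v f} := by
  intro e he f hf hef h
  have h1 := hM.simple e he f hf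
  rw [hv _ (by
    rintro x (rfl | hx)
    · exact he
    · rw [Set.mem_singleton_iff.1 hx]; exact hf), linearIndepOn_insert (by
      simpa using hef)] at h1
  apply h1.2
  rw [Set.image_singleton]
  exact h

lemma nonzero_vec : ∀ e ∈ M.E, v e ≠ 0 := by
  intro e he h
  have h1 := hM.simple e he e he
  rw [Set.pair_eq_singleton, hv _ (by
    intro x hx
    rw [Set.mem_singleton_iff.1 hx]; exact he)] at h1
  have := h1.ne_zero (Set.mem_singleton e)
  exact this h

lemma conf_restr : ∀ D ⊂ M.E, ∃ φ : (Fin n → K) →ₗ[K] (Fin k → K), ∀ e ∈ D, φ (v e) ≠ 0 := by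
  intro D hD
  obtain ⟨φ, _, hφ⟩ := coloring hM hv (T := ∅) (D := D) (Set.empty_subset _) hD.1
    (Set.empty_disjoint D) (Or.inl (by rw [Set.empty_union]; exact hD.ne))
    (by
      intro e he h
      rw [Set.image_empty, span_empty, Submodule.mem_bot] at h
      exact nonzero_vec hM hv e (hD.1 he) h)
    (by
      intro e he f hf hef h
      rw [insert_empty_eq, Set.image_singleton] at h
      exact simple_vec hM hv f (hD.1 hf) e (hD.1 he) (Ne.symm hef) h)
  exact ⟨φ, hφ⟩

lemma conf_tang : ∀ T ⊂ M.E, T.Nonempty → (∀ e ∈ M.E, v e ∈ span K (v '' T) → e ∈ T) →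
    ∃ φ : (Fin n → K) →ₗ[K] (Fin k → K), ∀ e ∈ M.E, φ (v e) = 0 ↔ e ∈ T := by
  classical
  intro T hT hne hfl
  -- a maximal set of pairwise non-parallel elements of the contraction
  let P : Set (Set α) := {D | D ⊆ M.E \ T ∧
    ∀ e ∈ D, ∀ f ∈ D, e ≠ f → v f ∉ span K (v '' (insert e T))}
  obtain ⟨D, hD⟩ := (Set.toFinite P).exists_maximal ⟨∅, by simp [P]⟩
  have hDP : D ∈ P := hD.prop
  obtain ⟨φ, hφT, hφD⟩ := coloring hM hv (T := T) (D := D) hT.1 (fun e he => (hDP.1 he).1)
    (by
      rw [Set.disjoint_right]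
      exact fun e he => (hDP.1 he).2) (Or.inr hne)
    (fun e he h => (hDP.1 he).2 (hfl e (hDP.1 he).1 h)) hDP.2
  refine ⟨φ, fun e he => ⟨fun h0 => ?_, fun ht => hφT e ht⟩⟩
  by_contra heT
  have heD : e ∉ D := fun h => hφD e h h0
  have hφs : ∀ x ∈ span K (v '' T), φ x = 0 := by
    intro x hx
    have : span K (v '' T) ≤ LinearMap.ker φ := by
      rw [span_le]
      rintro _ ⟨t, ht, rfl⟩
      exact hφT t ht
    exact this hx
  -- some element of `D` is parallel to `e`
  have hpar : ∃ f ∈ D, v f ∈ span K (v '' (insert e T)) ∨ v e ∈ span K (v '' (insert f T)) := by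
    by_contra hcon
    push Not at hcon
    have hins : insert e D ∈ P := by
      refine ⟨Set.insert_subset ⟨he, heT⟩ hDP.1, ?_⟩
      rintro a (rfl | ha) b (rfl | hb) hab
      · exact absurd rfl hab
      · exact (hcon b hb).1
      · exact (hcon a ha).2
      · exact hDP.2 a ha b hb hab
    exact heD (hD.le_of_ge hins (Set.subset_insert e D) (Set.mem_insert e D))
  obtain ⟨f, hf, hor⟩ := hpar
  rcases hor with h | h
  · rw [Set.image_insert_eq, Submodule.mem_span_insert] at h
    obtain ⟨c, z, hz, hfz⟩ := h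
    apply hφD f hf
    rw [hfz, map_add, map_smul, h0, hφs z hz, smul_zero, add_zero]
  · rw [Set.image_insert_eq, Submodule.mem_span_insert] at h
    obtain ⟨c, z, hz, hez⟩ := h
    have hc : c ≠ 0 := by
      rintro rfl
      rw [zero_smul, zero_add] at hez
      exact heT (hfl e he (by rw [hez]; exact hz))
    rw [hez, map_add, map_smul, hφs z hz, add_zero] at h0
    rcases smul_eq_zero.1 h0 with h1 | h1
    · exact hc h1
    · exact hφD f hf h1

/-- the configuration of a bond which does not span -/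
theorem exists_conf {C : Set α} (hC : M.IsCocircuit C) (hns : rk M C < rk M M.E) :
    ∃ h : (Fin n → K) →ₗ[K] K, Conf v M.E k h C := by
  classical
  rw [Matroid.isCocircuit_iff_minimal_compl_nonspanning] at hC
  have hC' := hC
  have hCE : C ⊆ M.E := by
    have := (Matroid.isCocircuit_iff_minimal_compl_nonspanning.2 hC')
    exact this.subset_ground
  have hspan : ∀ S ⊆ M.E, M.Spanning S ↔ ∀ e ∈ M.E, v e ∈ span K (v '' S) := by
    intro S hS
    rw [Matroid.spanning_iff_ground_subset_closure]
    exact ⟨fun h e he => (mem_closure_iff hv hS he).1 (h he),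
      fun h e he => (mem_closure_iff hv hS he).2 (h e he)⟩
  have h1 : ¬ M.Spanning (M.E \ C) := hC.prop
  rw [hspan _ Set.sdiff_subset] at h1
  push Not at h1
  obtain ⟨e0, he0, he1⟩ := h1
  obtain ⟨h, hh0, hh1⟩ := Submodule.exists_dual_map_eq_bot_of_notMem he1 inferInstance
  have hhz : ∀ x ∈ span K (v '' (M.E \ C)), h x = 0 := by
    intro x hx
    have h7 : h x ∈ Submodule.map h (span K (v '' (M.E \ C))) := Submodule.mem_map_of_mem hx
    exact (Submodule.mem_bot K).1 (hh1 ▸ h7)
  have hbond : ∀ e ∈ M.E, e ∈ C ↔ h (v e) ≠ 0 := by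
    intro e he
    constructor
    · intro hec h0
      have h2 : M.Spanning (M.E \ (C \ {e})) := by
        by_contra hcon
        have h3 := hC.le_of_le (y := C \ {e}) hcon Set.sdiff_subset
        exact (h3 hec).2 rfl
      rw [hspan _ Set.sdiff_subset] at h2
      have h3 := h2 e0 he0
      have h4 : span K (v '' (M.E \ (C \ {e}))) ≤ LinearMap.ker h := by
        rw [span_le]
        rintro _ ⟨x, hx, rfl⟩
        by_cases hxe : x = e
        · rw [hxe]; exact h0
        · exact hhz _ (subset_span ⟨x, ⟨hx.1, fun hxC => hx.2 ⟨hxC, hxe⟩⟩, rfl⟩)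
      exact hh0 (h4 h3)
    · intro h0
      by_contra hec
      exact h0 (hhz _ (subset_span ⟨e, ⟨he, hec⟩, rfl⟩))
  refine ⟨h, ⟨Set.toFinite _, conf_block hM hv, conf_restr hM hv, conf_tang hM hv,
    simple_vec hM hv, hbond, hCE, ?_, ?_⟩⟩
  · exact ⟨e0, (hbond e0 he0).2 hh0⟩
  · by_contra hcon
    push Not at hcon
    rw [rk_eq hv hCE, rk_eq hv subset_rfl] at hns
    have : span K (v '' M.E) ≤ span K (v '' C) := by
      rw [span_le]
      rintro _ ⟨e, he, rfl⟩
      exact hcon e he
    exact absurd (Submodule.finrank_mono this) (not_le.2 hns)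

end Tang

end MPddf864
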