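import Pool.Agent.Lib.MP_ddf864_co.LRRank
import Pool.Agent.Lib.MP_ddf864_co.Mat

/-!
# MP_ddf864_co : the configuration of a tangential block without a spanning bond
-/

namespace MPddf864

open Module Submodule

section

variable {K : Type} [Field K] [Fintype K] {α : Type} [Fintype α] {k : ℕ} {M : Matroid α}
variable {n : ℕ} {v : α → Fin n → K}

/-- The spanning sets of a represented matroid. -/
theorem spanning_iff' (hv : ∀ I ⊆ M.E, M.Indep I ↔ LinearIndepOn K v I) {S : Set α} (hS : S ⊆ M.E) :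
    M.Spanning S ↔ ∀ e ∈ M.E, v e ∈ span K (v '' S) := by
  rw [Matroid.spanning_iff_ground_subset_closure]
  exact ⟨fun h e he => (mem_closure_iff hv hS he).1 (h he),
    fun h e he => (mem_closure_iff hv hS he).2 (h e he)⟩

/-- A linear form whose kernel is spanned by elements of the matroid gives a cocircuit. -/
theorem cocircuit_of_form (hv : ∀ I ⊆ M.E, M.Indep I ↔ LinearIndepOn K v I)
    {f : (Fin n → K) →ₗ[K] K} (hf : ∃ e ∈ M.E, f (v e) ≠ 0)
    (hs : ∀ x ∈ span K (v '' M.E), f x = 0 → x ∈ span K (v '' {e | e ∈ M.E ∧ f (v e) = 0})) :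
    M.IsCocircuit {e | e ∈ M.E ∧ f (v e) ≠ 0} := by
  have hc : M.E \ {e | e ∈ M.E ∧ f (v e) ≠ 0} = {e | e ∈ M.E ∧ f (v e) = 0} := by
    ext e
    constructor
    · rintro ⟨he, h⟩
      refine ⟨he, ?_⟩
      by_contra h1
      exact h ⟨he, h1⟩
    · rintro ⟨he, h⟩
      exact ⟨he, fun h1 => h1.2 h⟩
  rw [Matroid.isCocircuit_iff_minimal_compl_nonspanning]
  refine ⟨?_, ?_⟩
  · change ¬ M.Spanning (M.E \ {e | e ∈ M.E ∧ f (v e) ≠ 0})
    rw [spanning_iff' hv Set.sdiff_subset, hc]
    intro h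
    obtain ⟨e, he, hfe⟩ := hf
    have h1 : span K (v '' {e | e ∈ M.E ∧ f (v e) = 0}) ≤ LinearMap.ker f := by
      rw [span_le]
      rintro _ ⟨x, hx, rfl⟩
      exact hx.2
    exact hfe (h1 (h e he))
  · intro X hX hXD e he
    by_contra heX
    apply hX
    rw [spanning_iff' hv Set.sdiff_subset]
    intro x hx
    have h1 : span K (v '' {e | e ∈ M.E ∧ f (v e) = 0}) ≤ span K (v '' (M.E \ X)) := by
      refine span_mono (Set.image_mono ?_)
      intro y hy
      exact ⟨hy.1, fun h => (hXD h).2 hy.2⟩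
    have h2 : v e ∈ span K (v '' (M.E \ X)) := subset_span ⟨e, ⟨he.1, heX⟩, rfl⟩
    have h3 : v x - (f (v x) / f (v e)) • v e ∈ span K (v '' M.E) :=
      sub_mem (subset_span ⟨x, hx, rfl⟩) (smul_mem _ _ (subset_span ⟨e, he.1, rfl⟩))
    have h4 : f (v x - (f (v x) / f (v e)) • v e) = 0 := by
      rw [map_sub, map_smul, smul_eq_mul, div_mul_cancel₀ _ he.2, sub_self]
    have h5 := add_mem (h1 (hs _ h3 h4)) (smul_mem _ (f (v x) / f (v e)) h2)
    rwa [sub_add_cancel] at h5

/-- A tangential block without a spanning bond gives a configuration. -/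
theorem exists_TB (hM : IsTangentialBlock K k M) (hv : ∀ I ⊆ M.E, M.Indep I ↔ LinearIndepOn K v I)
    (hno : ∀ C, M.IsCocircuit C → rk M C ≠ rk M M.E) :
    TB K {x : span K (v '' M.E) | ∃ e ∈ M.E, ∃ a : K, a ≠ 0 ∧ (x : Fin n → K) = a • v e} k := by
  classical
  have hmem : ∀ e ∈ M.E, v e ∈ span K (v '' M.E) := fun e he => subset_span ⟨e, he, rfl⟩
  have hC : ∀ e (he : e ∈ M.E), (⟨v e, hmem e he⟩ : span K (v '' M.E)) ∈
      {x : span K (v '' M.E) | ∃ e ∈ M.E, ∃ a : K, a ≠ 0 ∧ (x : Fin n → K) = a • v e} :=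
    fun e he => ⟨e, he, 1, one_ne_zero, (one_smul _ _).symm⟩
  have hspans : span K {x : span K (v '' M.E) | ∃ e ∈ M.E, ∃ a : K, a ≠ 0 ∧
      (x : Fin n → K) = a • v e} = ⊤ := by
    rw [eq_top_iff]
    intro x _
    have h1 : (x : Fin n → K) ∈ (span K {x : span K (v '' M.E) | ∃ e ∈ M.E, ∃ a : K, a ≠ 0 ∧
        (x : Fin n → K) = a • v e}).map (span K (v '' M.E)).subtype := by
      have h2 : span K (v '' M.E) ≤ (span K {x : span K (v '' M.E) | ∃ e ∈ M.E, ∃ a : K, a ≠ 0 ∧
          (x : Fin n → K) = a • v e}).map (span K (v '' M.E)).subtype := by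
        rw [span_le]
        rintro _ ⟨e, he, rfl⟩
        exact ⟨⟨v e, hmem e he⟩, subset_span (hC e he), rfl⟩
      exact h2 x.2
    obtain ⟨y, hy, hyx⟩ := h1
    have h3 : y = x := Subtype.ext hyx
    rwa [h3] at hy
  refine ⟨?_, ?_, hspans, ?_, ?_, ?_⟩
  · rintro ⟨e, he, a, ha, h⟩
    have h1 : a • v e = 0 := h.symm
    exact (smul_ne_zero ha (nonzero_vec hM hv e he)) h1
  · rintro a ha x ⟨e, he, b, hb, h⟩
    exact ⟨e, he, a * b, mul_ne_zero ha hb, by rw [coe_smul, h, smul_smul]⟩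
  · intro φ
    obtain ⟨φ', hφ'⟩ := LinearMap.exists_extend φ
    obtain ⟨e, he, h0⟩ := conf_block hM hv φ'
    refine ⟨_, hC e he, ?_⟩
    rw [← hφ']
    exact h0
  · rintro x ⟨e, he, a, ha, hx⟩
    have hx' : ∀ y : span K (v '' M.E), (∃ b : K, (y : Fin n → K) = b • v e) → y ∈ span K {x} := by
      rintro y ⟨b, hb⟩
      rw [mem_span_singleton]
      refine ⟨b * a⁻¹, Subtype.ext ?_⟩
      rw [coe_smul, hx, hb, smul_smul, mul_assoc, inv_mul_cancel₀ ha, mul_one]
    by_cases hE : M.E = {e}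
    · refine ⟨0, fun y hy _ => hx' y ?_⟩
      obtain ⟨e', he', b, -, hb⟩ := hy
      rw [hE, Set.mem_singleton_iff] at he'
      exact ⟨b, by rw [hb, he']⟩
    · obtain ⟨φ, hφ⟩ := conf_tang hM hv {e}
        ((Set.singleton_subset_iff.2 he).ssubset_of_ne (Ne.symm hE)) (Set.singleton_nonempty e) (by
        intro e' he' h
        rw [Set.image_singleton] at h
        by_contra hne
        exact simple_vec hM hv e' he' e he hne h)
      refine ⟨φ ∘ₗ (span K (v '' M.E)).subtype, ?_⟩
      rintro y ⟨e', he', b, hb0, hb⟩ h0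
      apply hx'
      have h1 : φ (y : Fin n → K) = 0 := h0
      rw [hb, map_smul, smul_eq_zero] at h1
      have h2 := (hφ e' he').1 (h1.resolve_left hb0)
      rw [Set.mem_singleton_iff] at h2
      exact ⟨b, by rw [hb, h2]⟩
  · intro f hf
    obtain ⟨f', hf'⟩ := LinearMap.exists_extend f
    have hff : ∀ x : span K (v '' M.E), f' (x : Fin n → K) = f x := fun x => LinearMap.congr_fun hf' x
    have hco := cocircuit_of_form hv (f := f') (by
      by_contra hcon
      push Not at hcon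
      apply hf.1
      ext x
      have h1 : span K (v '' M.E) ≤ LinearMap.ker f' := by
        rw [span_le]
        rintro _ ⟨e, he, rfl⟩
        exact hcon e he
      rw [LinearMap.zero_apply, ← hff]
      exact h1 x.2) (by
      intro x hx h0
      have h1 : (⟨x, hx⟩ : span K (v '' M.E)) ∈ LinearMap.ker f := by
        rw [LinearMap.mem_ker, ← hff]
        exact h0
      rw [← hf.2] at h1
      have h2 : span K ({x : span K (v '' M.E) | ∃ e ∈ M.E, ∃ a : K, a ≠ 0 ∧
          (x : Fin n → K) = a • v e} ∩ (LinearMap.ker f : Set _)) ≤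
          (span K (v '' {e | e ∈ M.E ∧ f' (v e) = 0})).comap (span K (v '' M.E)).subtype := by
        rw [span_le]
        rintro y ⟨⟨e, he, a, ha, hy⟩, hyf⟩
        rw [SetLike.mem_coe, mem_comap, coe_subtype, hy]
        refine smul_mem _ _ (subset_span ⟨e, ⟨he, ?_⟩, rfl⟩)
        have h3 : f' (y : Fin n → K) = 0 := by rw [hff]; exact hyf
        rw [hy, map_smul, smul_eq_zero] at h3
        exact h3.resolve_left ha
      exact h2 h1)
    have h3 := hno _ hco
    rw [rk_eq hv hco.subset_ground, rk_eq hv subset_rfl] at h3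
    -- the cocircuit does not span
    obtain ⟨D, hD⟩ : ∃ D : Submodule K (span K (v '' M.E)),
        D = span K {x : span K (v '' M.E) | ∃ e ∈ M.E, f' (v e) ≠ 0 ∧ (x : Fin n → K) = v e} :=
      ⟨_, rfl⟩
    have h4 : D < ⊤ := by
      rw [lt_top_iff_ne_top]
      intro h5
      apply h3
      unfold vr
      have h6 : span K (v '' {e | e ∈ M.E ∧ f' (v e) ≠ 0}) = span K (v '' M.E) := by
        apply le_antisymm
        · exact span_mono (Set.image_mono fun e he => he.1)
        · intro x hx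
          have h7 : (⟨x, hx⟩ : span K (v '' M.E)) ∈ D := by rw [h5]; trivial
          have h8 : D ≤ (span K (v '' {e | e ∈ M.E ∧ f' (v e) ≠ 0})).comap
              (span K (v '' M.E)).subtype := by
            rw [hD, span_le]
            rintro y ⟨e, he, hfe, hy⟩
            rw [SetLike.mem_coe, mem_comap, coe_subtype, hy]
            exact subset_span ⟨e, ⟨he, hfe⟩, rfl⟩
          exact h8 h7
      rw [h6]
    obtain ⟨g, hg0, hg⟩ := Submodule.exists_le_ker_of_lt_top D h4
    refine ⟨g, hg0, ?_⟩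
    rintro x ⟨e, he, a, ha, hx⟩
    by_cases hfe : f' (v e) = 0
    · have h9 : f x = 0 := by rw [← hff, hx, map_smul, hfe, smul_zero]
      rw [h9, zero_mul]
    · have h10 : g ⟨v e, hmem e he⟩ = 0 := by
        apply hg
        rw [hD]
        exact subset_span ⟨e, he, hfe, rfl⟩
      have h11 : x = a • (⟨v e, hmem e he⟩ : span K (v '' M.E)) := Subtype.ext hx
      rw [h11, map_smul g, h10, smul_zero, mul_zero]

end

end MPddf864
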