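import Pool.Agent.Lib.MP_ddf864_co.LRConf

/-!
# MP_ddf864_co : the rank of a tangential block without a spanning bond
-/

namespace MPddf864

open Module Submodule

section

variable {K : Type*} {V : Type*} [Field K] [AddCommGroup V] [Module K V]

theorem mem_of_mkQ_eq {U : Submodule K V} {x y : V} (h : U.mkQ x = U.mkQ y) : x - y ∈ U := by
  rw [← ker_mkQ U, LinearMap.mem_ker, map_sub, h, sub_self]

/-- Two pairs are independent modulo the first ones: extension of a system of pairs. -/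
theorem prs_succ {C : Set V} {m : ℕ} {Θ : V →ₗ[K] (Fin m → K × K)} (hs : Function.Surjective Θ)
    (hΘ : ∀ c ∈ C, ∀ i, (Θ c i).1 * (Θ c i).2 = 0) {f g : Dual K V} (hfg : ∀ c ∈ C, f c * g c = 0)
    {e z : V} (he : Θ e = 0) (hfe : f e ≠ 0) (hge : g e = 0) (hz : Θ z = 0) (hgz : g z ≠ 0) :
    prs K C (m + 1) := by
  refine ⟨LinearMap.pi (Fin.cons (f.prod g) fun i => LinearMap.proj i ∘ₗ Θ), ?_, ?_⟩
  · intro y
    obtain ⟨x, hx⟩ := hs fun i => y i.succ
    refine ⟨x + (((y 0).2 - g x) / g z) • z +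
      (((y 0).1 - f x - ((y 0).2 - g x) / g z * f z) / f e) • e, ?_⟩
    funext i
    rw [LinearMap.pi_apply]
    refine Fin.cases ?_ (fun i => ?_) i
    · rw [Fin.cons_zero]
      refine Prod.ext ?_ ?_
      · change f _ = (y 0).1
        rw [map_add, map_add, map_smul, map_smul, smul_eq_mul, smul_eq_mul, div_mul_cancel₀ _ hfe]
        ring
      · change g _ = (y 0).2
        rw [map_add, map_add, map_smul, map_smul, smul_eq_mul, smul_eq_mul, div_mul_cancel₀ _ hgz, hge]
        ring
    · have h1 : Θ (x + (((y 0).2 - g x) / g z) • z +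
          (((y 0).1 - f x - ((y 0).2 - g x) / g z * f z) / f e) • e) = Θ x := by
        rw [map_add, map_add, map_smul, map_smul, he, hz, smul_zero, smul_zero, add_zero, add_zero]
      rw [Fin.cons_succ, LinearMap.comp_apply, h1, hx]
      rfl
  · intro c hc i
    rw [LinearMap.pi_apply]
    refine Fin.cases ?_ (fun i => ?_) i
    · rw [Fin.cons_zero]
      exact hfg c hc
    · rw [Fin.cons_succ]
      exact hΘ c hc i

/-- The main point: every hyperplane spanned by the elements in the kernel of the pairs gives a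
linear form which is constant on one of the fibres. -/
theorem TB.exists_const [FiniteDimensional K V] {C : Set V} {k : ℕ} (h : TB K C k) {m : ℕ}
    {Θ : V →ₗ[K] (Fin m → K × K)} (hs : Function.Surjective Θ)
    (hΘ : ∀ c ∈ C, ∀ i, (Θ c i).1 * (Θ c i).2 = 0) (hmax : ¬ prs K C (m + 1)) {U : Submodule K V}
    (hU : U = span K (C ∩ (LinearMap.ker Θ : Set V))) {ι : Type*} (b : Basis ι K (V ⧸ U))
    {φ : Dual K U} (hφ : φ ∈ hyp K {v : U | (v : V) ∈ C}) :
    ∃ i, ∀ c ∈ C, ∀ c' ∈ C, U.mkQ c = b i → U.mkQ c' = b i → ∀ d : U, (d : V) = c - c' → φ d = 0 := by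
  classical
  by_contra hcon
  push Not at hcon
  choose v hv v' hv' h1 h2 d hd hφd using hcon
  have hUΘ : ∀ x ∈ U, Θ x = 0 := by
    intro x hx
    have h3 : U ≤ LinearMap.ker Θ := by
      rw [hU, span_le]
      exact Set.inter_subset_right
    exact h3 hx
  -- a section
  have hsec : ∀ w : ι → V, (∀ i, U.mkQ (w i) = b i) → ∀ x : V, U.mkQ (b.constr K w (U.mkQ x)) = U.mkQ x := by
    intro w hw x
    have h4 : U.mkQ ∘ₗ (b.constr K w) = LinearMap.id := by
      refine b.ext fun i => ?_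
      rw [LinearMap.comp_apply, b.constr_basis, hw, LinearMap.id_apply]
    exact LinearMap.congr_fun h4 _
  have hmem : ∀ x, ((LinearMap.id : V →ₗ[K] V) - b.constr K v ∘ₗ U.mkQ) x ∈ U := by
    intro x
    rw [LinearMap.sub_apply, LinearMap.id_apply, LinearMap.comp_apply]
    exact mem_of_mkQ_eq (hsec v h1 x).symm
  obtain ⟨r, hr⟩ : ∃ r : V →ₗ[K] U, ∀ x, (r x : V) = x - b.constr K v (U.mkQ x) :=
    ⟨LinearMap.codRestrict U _ hmem, fun x => rfl⟩
  obtain ⟨f, hf⟩ : ∃ f : Dual K V, ∀ x, f x = φ (r x) := ⟨φ ∘ₗ r, fun x => rfl⟩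
  have hrU : ∀ x : U, r x = x := by
    intro x
    apply Subtype.ext
    have h5 : U.mkQ (x : V) = 0 := by
      rw [← LinearMap.mem_ker, ker_mkQ]; exact x.2
    rw [hr, h5, map_zero, sub_zero]
  have hfv : ∀ i, f (v i) = 0 := by
    intro i
    have h6 : r (v i) = 0 := by
      apply Subtype.ext
      rw [hr, h1, b.constr_basis, sub_self, coe_zero]
    rw [hf, h6, map_zero]
  have hfv' : ∀ i, f (v' i) ≠ 0 := by
    intro i hi
    apply hφd i
    have h7 : d i = - r (v' i) := by
      apply Subtype.ext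
      rw [hd]
      change _ = -(r (v' i) : V)
      rw [hr, h2, b.constr_basis, neg_sub]
    rw [h7, map_neg, ← hf, hi, neg_zero]
  have hspanφ := hφ.2
  -- the kernel of `f` is spanned by elements of `C`
  have hfh : f ∈ hyp K C := by
    refine ⟨fun h0 => hφ.1 ?_, le_antisymm ?_ ?_⟩
    · ext x
      have := LinearMap.congr_fun h0 (x : V)
      rw [hf, hrU] at this
      exact this
    · rw [span_le]; exact Set.inter_subset_right
    · intro x hx
      have h8 : f x = 0 := hx
      have h9 : x = (r x : V) + b.constr K v (U.mkQ x) := by rw [hr, sub_add_cancel]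
      rw [h9]
      refine add_mem ?_ ?_
      · have h10 : r x ∈ span K ({v : U | (v : V) ∈ C} ∩ (LinearMap.ker φ : Set U)) := by
          rw [hspanφ, LinearMap.mem_ker, ← hf, h8]
        have h11 : span K ({v : U | (v : V) ∈ C} ∩ (LinearMap.ker φ : Set U)) ≤
            (span K (C ∩ (LinearMap.ker f : Set V))).comap U.subtype := by
          rw [span_le]
          rintro y ⟨hy, hyφ⟩
          refine subset_span ⟨hy, ?_⟩
          rw [SetLike.mem_coe, LinearMap.mem_ker, hf, coe_subtype, hrU]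
          exact hyφ
        exact h11 h10
      · rw [b.constr_apply]
        refine Submodule.finsuppSum_mem _ _ _ _ fun i _ => smul_mem _ _ (subset_span ⟨hv i, hfv i⟩)
  obtain ⟨g, hg0, hg⟩ := h.bond f hfh
  -- an element of `C` in `U` where `f` is not zero
  obtain ⟨e, he, heΘ, hfe⟩ : ∃ e ∈ C, Θ e = 0 ∧ f e ≠ 0 := by
    by_contra hcon
    push Not at hcon
    apply hφ.1
    ext x
    have h12 : (x : V) ∈ span K (C ∩ (LinearMap.ker Θ : Set V)) := hU ▸ x.2
    have h13 : span K (C ∩ (LinearMap.ker Θ : Set V)) ≤ LinearMap.ker f := by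
      rw [span_le]
      rintro y ⟨hy, hyΘ⟩
      exact hcon y hy hyΘ
    have h14 : f x = 0 := h13 h12
    rw [hf, hrU] at h14
    exact h14
  have hge : g e = 0 := (mul_eq_zero.1 (hg e he)).resolve_left hfe
  have hgΘ : ∀ z, Θ z = 0 → g z = 0 := by
    intro z hz
    by_contra hgz
    exact hmax (prs_succ hs hΘ hg heΘ hfe hge hz hgz)
  apply hg0
  ext x
  have h15 : x - b.constr K v' (U.mkQ x) ∈ U := mem_of_mkQ_eq (hsec v' h2 x).symm
  have h16 : g (x - b.constr K v' (U.mkQ x)) = 0 := hgΘ _ (hUΘ _ h15)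
  have h17 : g (b.constr K v' (U.mkQ x)) = 0 := by
    have h18 : g ∘ₗ b.constr K v' = 0 := by
      refine b.ext fun i => ?_
      rw [LinearMap.comp_apply, b.constr_basis, LinearMap.zero_apply]
      exact (mul_eq_zero.1 (hg _ (hv' i))).resolve_left (hfv' i)
    exact LinearMap.congr_fun h18 _
  rw [map_sub, h17, sub_zero] at h16
  exact h16

/-- The linear forms on `U` which are constant on the fibre over `w` are few. -/
theorem bad_mul_le [Finite K] [FiniteDimensional K V] (C : Set V) (U : Submodule K V) (w : V ⧸ U) :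
    ({φ : Dual K U | ∀ c ∈ C, ∀ c' ∈ C, U.mkQ c = w → U.mkQ c' = w → ∀ d : U, (d : V) = c - c' →
      φ d = 0}).ncard * ({c | c ∈ C ∧ U.mkQ c = w}).ncard ≤ Nat.card U := by
  have hfV : Finite V := Module.finite_of_finite K
  have hfU : Finite (Dual K U) := Module.finite_of_finite K
  rcases ({c | c ∈ C ∧ U.mkQ c = w}).eq_empty_or_nonempty with h0 | ⟨c0, hc0, hc1⟩
  · rw [h0, Set.ncard_empty, mul_zero]
    exact Nat.zero_le _
  obtain ⟨D, hD⟩ : ∃ D : Submodule K U, D = span K {d : U | ∃ c ∈ C, U.mkQ c = w ∧ (d : V) = c - c0} :=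
    ⟨_, rfl⟩
  have h1 : ({c | c ∈ C ∧ U.mkQ c = w}).ncard ≤ Nat.card D := by
    have h2 : {c | c ∈ C ∧ U.mkQ c = w} ⊆ (fun d : V => d + c0) '' ((D.map U.subtype : Submodule K V) : Set V) := by
      rintro c ⟨hc, hcw⟩
      have h3 : c - c0 ∈ U := mem_of_mkQ_eq (hcw.trans hc1.symm)
      refine ⟨c - c0, ⟨⟨c - c0, h3⟩, ?_, rfl⟩, sub_add_cancel _ _⟩
      rw [hD]
      exact subset_span ⟨c, hc, hcw, rfl⟩
    have h4 := Set.ncard_le_ncard h2 (Set.toFinite _)
    refine h4.trans ((Set.ncard_image_le (Set.toFinite _)).trans ?_)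
    have h5 : ((D.map U.subtype : Submodule K V) : Set V) = U.subtype '' (D : Set U) := rfl
    rw [h5]
    refine (Set.ncard_image_le (Set.toFinite _)).trans (le_of_eq ?_)
    rw [← Nat.card_coe_set_eq]
    rfl
  have h6 : ({φ : Dual K U | ∀ c ∈ C, ∀ c' ∈ C, U.mkQ c = w → U.mkQ c' = w → ∀ d : U, (d : V) = c - c' →
      φ d = 0}).ncard ≤ Nat.card D.dualAnnihilator := by
    have h7 : {φ : Dual K U | ∀ c ∈ C, ∀ c' ∈ C, U.mkQ c = w → U.mkQ c' = w → ∀ d : U, (d : V) = c - c' →
      φ d = 0} ⊆ (D.dualAnnihilator : Set (Dual K U)) := by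
      intro φ hφ
      rw [SetLike.mem_coe, mem_dualAnnihilator]
      intro x hx
      have h8 : D ≤ LinearMap.ker φ := by
        rw [hD, span_le]
        rintro d ⟨c, hc, hcw, hd⟩
        exact hφ c hc c0 hc0 hcw hc1 d hd
      exact h8 hx
    refine (Set.ncard_le_ncard h7 (Set.toFinite _)).trans (le_of_eq ?_)
    rw [← Nat.card_coe_set_eq]
    rfl
  refine (Nat.mul_le_mul h6 h1).trans (le_of_eq ?_)
  rw [Module.natCard_eq_pow_finrank (K := K) (V := D.dualAnnihilator),
    Module.natCard_eq_pow_finrank (K := K) (V := D), Module.natCard_eq_pow_finrank (K := K) (V := U),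
    ← pow_add, ← Subspace.finrank_add_finrank_dualAnnihilator_eq D, add_comm]

end

end MPddf864
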