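import Mathlib

/-!
# MP_ddf864_co : points and hyperplanes

For a finite set `F` of vectors, closed under multiplication by nonzero scalars and without the zero
vector, which spans the space, there are at least as many linear forms whose kernel is spanned by
elements of `F` as elements of `F` (Motzkin).
-/

namespace MPddf864

open Module Submodule

/-- A counting lemma: if `x` is not incident to `l`, then the degree of `l` is at most the degree of
`x`. -/
theorem motz_count {α β : Type*} (P : Finset α) (L : Finset β) (I : α → β → Prop)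
    [∀ x l, Decidable (I x l)]
    (h1 : ∀ x ∈ P, ∀ l ∈ L, ¬ I x l →
      (P.filter fun y => I y l).card ≤ (L.filter fun m => I x m).card)
    (h2 : ∀ x ∈ P, ∃ l ∈ L, ¬ I x l) (h3 : ∀ l ∈ L, ∃ x ∈ P, ¬ I x l)
    (h4 : ∀ x ∈ P, ∃ l ∈ L, I x l) : P.card ≤ L.card := by
  classical
  by_contra hcon
  push Not at hcon
  have hP : P.Nonempty := by
    rw [← Finset.card_pos]; omega
  obtain ⟨x0, hx0⟩ := hP
  obtain ⟨l0, hl0, _⟩ := h2 x0 hx0
  have hn : (0 : ℚ) < P.card := by exact_mod_cast Finset.card_pos.2 ⟨x0, hx0⟩
  have hb : (0 : ℚ) < L.card := by exact_mod_cast Finset.card_pos.2 ⟨l0, hl0⟩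
  have hbn : (L.card : ℚ) < P.card := by exact_mod_cast hcon
  have e1 : ∀ x, ((L.filter fun m => ¬ I x m).card : ℚ) =
      L.card - (L.filter fun m => I x m).card := by
    intro x
    have := Finset.card_filter_add_card_filter_not (s := L) (fun m => I x m)
    rw [eq_sub_iff_add_eq']
    exact_mod_cast this
  have e2 : ∀ l, ((P.filter fun y => ¬ I y l).card : ℚ) =
      P.card - (P.filter fun y => I y l).card := by
    intro l
    have := Finset.card_filter_add_card_filter_not (s := P) (fun y => I y l)
    rw [eq_sub_iff_add_eq']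
    exact_mod_cast this
  have p1 : ∀ x ∈ P, (0 : ℚ) < (L.filter fun m => ¬ I x m).card := by
    intro x hx
    obtain ⟨l, hl, hxl⟩ := h2 x hx
    exact_mod_cast Finset.card_pos.2 ⟨l, Finset.mem_filter.2 ⟨hl, hxl⟩⟩
  have p2 : ∀ l ∈ L, (0 : ℚ) < (P.filter fun y => ¬ I y l).card := by
    intro l hl
    obtain ⟨x, hx, hxl⟩ := h3 l hl
    exact_mod_cast Finset.card_pos.2 ⟨x, Finset.mem_filter.2 ⟨hx, hxl⟩⟩
  have A : ∑ x ∈ P, ∑ l ∈ L.filter (fun m => ¬ I x m),
      (1 : ℚ) / (P.card * (L.filter fun m => ¬ I x m).card) = 1 := by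
    have : ∀ x ∈ P, ∑ l ∈ L.filter (fun m => ¬ I x m),
        (1 : ℚ) / (P.card * (L.filter fun m => ¬ I x m).card) = 1 / P.card := by
      intro x hx
      have := p1 x hx
      rw [Finset.sum_const, nsmul_eq_mul]
      field_simp
    rw [Finset.sum_congr rfl this, Finset.sum_const, nsmul_eq_mul]
    field_simp
  have B : ∑ l ∈ L, ∑ x ∈ P.filter (fun y => ¬ I y l),
      (1 : ℚ) / (L.card * (P.filter fun y => ¬ I y l).card) = 1 := by
    have : ∀ l ∈ L, ∑ x ∈ P.filter (fun y => ¬ I y l),
        (1 : ℚ) / (L.card * (P.filter fun y => ¬ I y l).card) = 1 / L.card := by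
      intro l hl
      have := p2 l hl
      rw [Finset.sum_const, nsmul_eq_mul]
      field_simp
    rw [Finset.sum_congr rfl this, Finset.sum_const, nsmul_eq_mul]
    field_simp
  have B' : ∑ x ∈ P, ∑ l ∈ L.filter (fun m => ¬ I x m),
      (1 : ℚ) / (L.card * (P.filter fun y => ¬ I y l).card) = 1 := by
    refine Eq.trans (Finset.sum_comm' ?_) B
    intro x l
    rw [Finset.mem_filter, Finset.mem_filter]
    tauto
  have C : ∑ x ∈ P, ∑ l ∈ L.filter (fun m => ¬ I x m),
      (1 : ℚ) / (L.card * (P.filter fun y => ¬ I y l).card) <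
      ∑ x ∈ P, ∑ l ∈ L.filter (fun m => ¬ I x m),
      (1 : ℚ) / (P.card * (L.filter fun m => ¬ I x m).card) := by
    refine Finset.sum_lt_sum_of_nonempty ⟨x0, hx0⟩ fun x hx => ?_
    obtain ⟨l, hl, hxl⟩ := h2 x hx
    refine Finset.sum_lt_sum_of_nonempty ⟨l, Finset.mem_filter.2 ⟨hl, hxl⟩⟩ fun l hl => ?_
    rw [Finset.mem_filter] at hl
    have q1 := p1 x hx
    have q2 := p2 l hl.1
    have q3 : ((P.filter fun y => I y l).card : ℚ) ≤ (L.filter fun m => I x m).card := by
      exact_mod_cast h1 x hx l hl.1 hl.2
    have q4 : (0 : ℚ) < (L.filter fun m => I x m).card := by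
      obtain ⟨m, hm, hxm⟩ := h4 x hx
      exact_mod_cast Finset.card_pos.2 ⟨m, Finset.mem_filter.2 ⟨hm, hxm⟩⟩
    refine one_div_lt_one_div_of_lt (mul_pos hn q1) ?_
    rw [e1, e2]
    nlinarith
  rw [A, B'] at C
  exact lt_irrefl _ C

/-- The nonzero linear forms whose kernel is spanned by elements of `F`. -/
def hyp (K : Type*) {V : Type*} [Field K] [AddCommGroup V] [Module K V] (F : Set V) :
    Set (Dual K V) :=
  {f | f ≠ 0 ∧ span K (F ∩ (LinearMap.ker f : Set V)) = LinearMap.ker f}

section

variable {K : Type*} {V : Type*} [Field K] [AddCommGroup V] [Module K V]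

/-- Every element of `F` is avoided by a spanned hyperplane. -/
theorem hyp_exists {F : Set V} (hF : span K F = ⊤) {x : V} (hx : x ∈ F) (hx0 : x ≠ 0) :
    ∃ f ∈ hyp K F, f x ≠ 0 := by
  classical
  have hli : LinearIndepOn K id ({x} : Set V) := LinearIndepOn.singleton hx0
  obtain ⟨b, hbF, hxb, hFb, hb⟩ := exists_linearIndepOn_id_extension hli
    (Set.singleton_subset_iff.2 hx)
  have hbt : ⊤ ≤ span K (Set.range ((↑) : b → V)) := by
    rw [Subtype.range_coe, ← hF, span_le]
    exact hFb
  let B := Basis.mk hb hbt
  have hBv : ∀ i : b, B i = (i : V) := fun i => Basis.mk_apply hb hbt i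
  let i0 : b := ⟨x, hxb rfl⟩
  have hfx : B.coord i0 x = 1 := by
    have : x = B i0 := (hBv i0).symm
    rw [this, Basis.coord_apply, Basis.repr_self, Finsupp.single_eq_same]
  refine ⟨B.coord i0, ⟨?_, ?_⟩, ?_⟩
  · intro h0
    rw [h0] at hfx
    exact zero_ne_one hfx
  · apply le_antisymm
    · rw [span_le]
      exact Set.inter_subset_right
    · intro v hv
      have hv' : B.repr v i0 = 0 := hv
      rw [← B.linearCombination_repr v, Finsupp.linearCombination_apply, Finsupp.sum]
      refine sum_mem fun i hi => smul_mem _ _ (subset_span ⟨?_, ?_⟩)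
      · rw [hBv]; exact hbF i.2
      · rw [SetLike.mem_coe, LinearMap.mem_ker, Basis.coord_apply, Basis.repr_self,
          Finsupp.single_apply, if_neg]
        rintro rfl
        exact (Finsupp.mem_support_iff.1 hi) hv'
  · rw [hfx]; exact one_ne_zero

/-- The images of the elements of `F` in the quotient by `x`, without zero. -/
def quo (K : Type*) {V : Type*} [Field K] [AddCommGroup V] [Module K V] (F : Set V) (x : V) :
    Set (V ⧸ span K {x}) :=
  {w | w ≠ 0 ∧ ∃ v ∈ F, (span K {x}).mkQ v = w}

theorem span_quo {F : Set V} (hF : span K F = ⊤) (x : V) : span K (quo K F x) = ⊤ := by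
  rw [eq_top_iff]
  intro w _
  obtain ⟨v, rfl⟩ := (span K {x}).mkQ_surjective w
  have h : v ∈ span K F := by rw [hF]; trivial
  induction h using span_induction with
  | mem v hv =>
    by_cases h0 : (span K {x}).mkQ v = 0
    · rw [h0]; exact zero_mem _
    · exact subset_span ⟨h0, v, hv, rfl⟩
  | zero => rw [map_zero]; exact zero_mem _
  | add v w _ _ h1 h2 => rw [map_add]; exact add_mem (h1 trivial) (h2 trivial)
  | smul a v _ h1 => rw [map_smul]; exact smul_mem _ _ (h1 trivial)

theorem quo_hyp {F : Set V} {x : V} (hx : x ∈ F) {f : Dual K (V ⧸ span K {x})}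
    (hf : f ∈ hyp K (quo K F x)) :
    f ∘ₗ (span K {x}).mkQ ∈ hyp K F ∧ (f ∘ₗ (span K {x}).mkQ) x = 0 := by
  have hx0 : (f ∘ₗ (span K {x}).mkQ) x = 0 := by
    have : (span K {x}).mkQ x = 0 := by
      rw [← LinearMap.mem_ker, ker_mkQ]; exact mem_span_singleton_self x
    rw [LinearMap.comp_apply, this, map_zero]
  refine ⟨⟨?_, ?_⟩, hx0⟩
  · intro h0
    apply hf.1
    ext v
    exact LinearMap.congr_fun h0 v
  · apply le_antisymm
    · rw [span_le]
      exact Set.inter_subset_right
    · intro v hv
      have h1 : (span K {x}).mkQ v ∈ span K (quo K F x ∩ (LinearMap.ker f : Set _)) := by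
        rw [hf.2]
        exact hv
      have h2 : span K (quo K F x ∩ (LinearMap.ker f : Set _)) ≤
          (span K (F ∩ (LinearMap.ker (f ∘ₗ (span K {x}).mkQ) : Set V))).map (span K {x}).mkQ := by
        rw [span_le]
        rintro _ ⟨⟨_, y, hy, rfl⟩, hw⟩
        exact mem_map_of_mem (subset_span ⟨hy, hw⟩)
      obtain ⟨y, hy, hyv⟩ := h2 h1
      have h3 : v - y ∈ span K {x} := by
        rw [← ker_mkQ (span K {x}), LinearMap.mem_ker, map_sub, hyv, sub_self]
      have h4 : span K {x} ≤ span K (F ∩ (LinearMap.ker (f ∘ₗ (span K {x}).mkQ) : Set V)) :=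
        span_mono (Set.singleton_subset_iff.2 ⟨hx, hx0⟩)
      have := add_mem (h4 h3) hy
      rwa [sub_add_cancel] at this

end

universe u

theorem motz_aux (K : Type*) [Field K] [Finite K] (n : ℕ) : ∀ (V : Type u) [AddCommGroup V]
    [Module K V] [FiniteDimensional K V], finrank K V = n → ∀ F : Set V, (0 : V) ∉ F →
    span K F = ⊤ → (∀ a : K, a ≠ 0 → ∀ v ∈ F, a • v ∈ F) → F.ncard ≤ (hyp K F).ncard := by
  classical
  induction n with
  | zero =>
    intro V _ _ _ hV F h0 _ _
    have : Subsingleton V := finrank_zero_iff.1 hV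
    have hF : F = ∅ := by
      rw [Set.eq_empty_iff_forall_notMem]
      intro v hv
      rw [Subsingleton.elim v 0] at hv
      exact h0 hv
    rw [hF, Set.ncard_empty]
    exact Nat.zero_le _
  | succ n ih =>
    intro V _ _ _ hV F h0 hF hc
    have hfV : Finite V := Module.finite_of_finite K
    have hfD : Finite (Dual K V) := Module.finite_of_finite K
    rcases Nat.eq_zero_or_pos n with hn | hn
    · subst hn
      have h1 : {f : Dual K V | f ≠ 0} ⊆ hyp K F := by
        intro f hf
        refine ⟨hf, ?_⟩
        have hr := f.finrank_range_add_finrank_ker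
        have hs : Function.Surjective f := LinearMap.surjective hf
        rw [LinearMap.range_eq_top.2 hs, finrank_top, finrank_self, hV] at hr
        have hk : LinearMap.ker f = ⊥ := by
          rw [← finrank_eq_zero (R := K)]; omega
        apply le_antisymm
        · rw [span_le]; exact Set.inter_subset_right
        · rw [hk]; exact bot_le
      have h2 : F.ncard ≤ ({v : V | v ≠ 0}).ncard := by
        refine Set.ncard_le_ncard ?_ (Set.toFinite _)
        intro v hv h
        rw [h] at hv
        exact h0 hv
      have h3 : ({v : V | v ≠ 0}).ncard + 1 = Nat.card V := by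
        have := Set.ncard_add_ncard_compl ({(0 : V)} : Set V)
        rw [Set.ncard_singleton] at this
        rw [← this, add_comm]
        rfl
      have h4 : ({f : Dual K V | f ≠ 0}).ncard + 1 = Nat.card (Dual K V) := by
        have := Set.ncard_add_ncard_compl ({(0 : Dual K V)} : Set (Dual K V))
        rw [Set.ncard_singleton] at this
        rw [← this, add_comm]
        rfl
      have h5 : Nat.card (Dual K V) = Nat.card V := by
        rw [Module.natCard_eq_pow_finrank (K := K) (V := V),
          Module.natCard_eq_pow_finrank (K := K) (V := Dual K V), Subspace.dual_finrank_eq]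
      have h6 := Set.ncard_le_ncard h1 (Set.toFinite _)
      omega
    · have hquo : ∀ x ∈ F, finrank K (V ⧸ span K {x}) = n := by
        intro x hx
        have hx0 : x ≠ 0 := fun h => h0 (h ▸ hx)
        have := (span K {x}).finrank_quotient_add_finrank
        rw [finrank_span_singleton hx0, hV] at this
        omega
      have hih : ∀ x ∈ F, (quo K F x).ncard ≤ ({f | f ∈ hyp K F ∧ f x = 0}).ncard := by
        intro x hx
        have h1 := ih (V ⧸ span K {x}) (hquo x hx) (quo K F x) (fun h => h.1 rfl)
          (span_quo hF x) (by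
            rintro a ha _ ⟨hw, v, hv, rfl⟩
            exact ⟨smul_ne_zero ha hw, a • v, hc a ha v hv, map_smul _ _ _⟩)
        refine h1.trans ?_
        have h2 : Set.InjOn (fun f : Dual K (V ⧸ span K {x}) => f ∘ₗ (span K {x}).mkQ)
            (hyp K (quo K F x)) := by
          intro f _ g _ hfg
          ext v
          exact LinearMap.congr_fun hfg v
        rw [← h2.ncard_image]
        refine Set.ncard_le_ncard ?_ (Set.toFinite _)
        rintro _ ⟨f, hf, rfl⟩
        exact quo_hyp hx hf
      have hfin : (hyp K F).Finite := Set.toFinite _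
      have hfin' : F.Finite := Set.toFinite _
      have key := motz_count hfin'.toFinset hfin.toFinset (fun v f => f v = 0) ?_ ?_ ?_ ?_
      · rwa [← Set.ncard_eq_toFinset_card F hfin', ← Set.ncard_eq_toFinset_card _ hfin] at key
      · intro x hx f hf hxf
        rw [Set.Finite.mem_toFinset] at hx hf
        have e1 : (hfin'.toFinset.filter fun y => f y = 0).card = (F ∩ {y | f y = 0}).ncard := by
          rw [← Set.ncard_coe_finset]
          congr 1
          ext y
          simp
        have e2 : (hfin.toFinset.filter fun g => g x = 0).card =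
            ({g | g ∈ hyp K F ∧ g x = 0}).ncard := by
          rw [← Set.ncard_coe_finset]
          congr 1
          ext y
          simp
        rw [e1, e2]
        refine le_trans ?_ (hih x hx)
        have hinj : Set.InjOn (span K {x}).mkQ (F ∩ {y | f y = 0}) := by
          intro y hy z hz hyz
          have h3 : y - z ∈ span K {x} := by
            rw [← ker_mkQ (span K {x}), LinearMap.mem_ker, map_sub, hyz, sub_self]
          obtain ⟨a, ha⟩ := mem_span_singleton.1 h3
          have h4 : a * f x = 0 := by
            rw [← smul_eq_mul, ← map_smul, ha, map_sub, hy.2, hz.2, sub_self]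
          rcases mul_eq_zero.1 h4 with h5 | h5
          · rw [h5, zero_smul] at ha
            exact sub_eq_zero.1 ha.symm
          · exact absurd h5 hxf
        rw [← hinj.ncard_image]
        have hfQ : Finite (V ⧸ span K {x}) := Finite.of_surjective _ (span K {x}).mkQ_surjective
        refine Set.ncard_le_ncard ?_ (Set.toFinite _)
        rintro _ ⟨y, hy, rfl⟩
        refine ⟨fun h => ?_, y, hy.1, rfl⟩
        rw [← LinearMap.mem_ker, ker_mkQ] at h
        obtain ⟨a, ha⟩ := mem_span_singleton.1 h
        have h4 : a * f x = 0 := by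
          rw [← smul_eq_mul, ← map_smul, ha]; exact hy.2
        rcases mul_eq_zero.1 h4 with h5 | h5
        · rw [h5, zero_smul] at ha
          apply h0
          rw [ha]
          exact hy.1
        · exact hxf h5
      · intro x hx
        rw [Set.Finite.mem_toFinset] at hx
        obtain ⟨f, hf, hfx⟩ := hyp_exists hF hx (fun h => h0 (h ▸ hx))
        exact ⟨f, hfin.mem_toFinset.2 hf, hfx⟩
      · intro f hf
        rw [Set.Finite.mem_toFinset] at hf
        by_contra hcon
        push Not at hcon
        apply hf.1
        have h7 : span K F ≤ LinearMap.ker f := by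
          rw [span_le]
          intro y hy
          exact hcon y (hfin'.mem_toFinset.2 hy)
        rw [hF, top_le_iff, LinearMap.ker_eq_top] at h7
        exact h7
      · intro x hx
        rw [Set.Finite.mem_toFinset] at hx
        have h8 : (quo K F x).Nonempty := by
          by_contra hne
          rw [Set.not_nonempty_iff_eq_empty] at hne
          have h9 := span_quo hF x
          rw [hne, span_empty] at h9
          have h10 := hquo x hx
          rw [← finrank_top, ← h9, finrank_bot] at h10
          omega
        obtain ⟨w, hw⟩ := h8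
        obtain ⟨f, hf, -⟩ := hyp_exists (span_quo hF x) hw hw.1
        have h11 := quo_hyp hx hf
        exact ⟨_, hfin.mem_toFinset.2 h11.1, h11.2⟩

/-- Motzkin: a set of nonzero vectors, closed under nonzero scalars, which spans the space has at
most as many elements as there are linear forms whose kernel is spanned by elements of the set. -/
theorem motz {K : Type*} {V : Type*} [Field K] [Finite K] [AddCommGroup V] [Module K V]
    [FiniteDimensional K V] {F : Set V} (h0 : (0 : V) ∉ F) (hF : span K F = ⊤)
    (hc : ∀ a : K, a ≠ 0 → ∀ v ∈ F, a • v ∈ F) : F.ncard ≤ (hyp K F).ncard :=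
  motz_aux K _ V rfl F h0 hF hc

end MPddf864
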