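import Pool.Agent.Lib.MP_ddf864_co.LRMain

/-!
# MP_ddf864_co : the inequality for the rank
-/

namespace MPddf864

open Module Submodule

section

variable {K : Type*} {V : Type*} [Field K] [AddCommGroup V] [Module K V]

/-- Some fibre is large. -/
theorem TB.exists_fibre [Finite K] [FiniteDimensional K V] {C : Set V} {k : ℕ} (h : TB K C k)
    {U : Submodule K V} {Wc : Set (V ⧸ U)} (h0 : (0 : V ⧸ U) ∈ Wc) (hW : ∀ c ∈ C, U.mkQ c ∈ Wc)
    {t : Dual K (V ⧸ U)} (ht : t ≠ 0) :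
    ∃ w, t w ≠ 0 ∧ (Nat.card K - 1) * Nat.card K ^ k <
      Wc.ncard * ({c | c ∈ C ∧ U.mkQ c = w}).ncard := by
  classical
  have hfV : Finite V := Module.finite_of_finite K
  have hfQ : Finite (V ⧸ U) := Module.finite_of_finite K
  obtain ⟨X, hX⟩ : ∃ X, X = (Nat.card K - 1) * Nat.card K ^ k := ⟨_, rfl⟩
  have hXpos : 0 < X := by
    have hq : 1 < Nat.card K := Finite.one_lt_card
    rw [hX]
    exact Nat.mul_pos (by omega) (pow_pos (by omega) _)
  by_contra hcon
  push Not at hcon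
  rw [← hX] at hcon
  have ht' : t ∘ₗ U.mkQ ≠ 0 := by
    intro h1
    apply ht
    ext v
    exact LinearMap.congr_fun h1 v
  have h2 := h.bond_card ht'
  rw [← hX] at h2
  have hfin : ({c | c ∈ C ∧ (t ∘ₗ U.mkQ) c ≠ 0}).Finite := Set.toFinite _
  have hWfin : (Wc \ {0}).Finite := Set.toFinite _
  have h3 : ({c | c ∈ C ∧ (t ∘ₗ U.mkQ) c ≠ 0}).ncard = ∑ w ∈ hWfin.toFinset,
      (hfin.toFinset.filter fun c => U.mkQ c = w).card := by
    rw [Set.ncard_eq_toFinset_card _ hfin]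
    refine Finset.card_eq_sum_card_fiberwise fun c hc => ?_
    have hc' := hfin.mem_toFinset.1 hc
    refine hWfin.mem_toFinset.2 ⟨hW c hc'.1, fun h4 => hc'.2 ?_⟩
    have h5 : U.mkQ c = 0 := h4
    rw [LinearMap.comp_apply, h5, map_zero]
  have h6 : ∀ w ∈ hWfin.toFinset, Wc.ncard * (hfin.toFinset.filter fun c => U.mkQ c = w).card ≤ X := by
    intro w _
    by_cases htw : t w = 0
    · have h7 : (hfin.toFinset.filter fun c => U.mkQ c = w) = ∅ := by
        rw [Finset.filter_eq_empty_iff]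
        intro c hc hcw
        have hc' := hfin.mem_toFinset.1 hc
        apply hc'.2
        rw [LinearMap.comp_apply, hcw, htw]
      rw [h7, Finset.card_empty, mul_zero]
      exact Nat.zero_le _
    · refine le_trans (Nat.mul_le_mul_left _ ?_) (hcon w htw)
      rw [← Set.ncard_coe_finset]
      refine Set.ncard_le_ncard ?_ (Set.toFinite _)
      intro c hc
      rw [Finset.coe_filter] at hc
      exact ⟨(hfin.mem_toFinset.1 hc.1).1, hc.2⟩
  have h8 : Wc.ncard * X ≤ (Wc \ {0}).ncard * X := by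
    calc Wc.ncard * X ≤ Wc.ncard * ∑ w ∈ hWfin.toFinset,
        (hfin.toFinset.filter fun c => U.mkQ c = w).card := by
          rw [← h3]; exact Nat.mul_le_mul_left _ h2
      _ = ∑ w ∈ hWfin.toFinset, Wc.ncard * (hfin.toFinset.filter fun c => U.mkQ c = w).card :=
          Finset.mul_sum _ _ _
      _ ≤ ∑ w ∈ hWfin.toFinset, X := Finset.sum_le_sum h6
      _ = (Wc \ {0}).ncard * X := by
          rw [Finset.sum_const, smul_eq_mul, ← Set.ncard_eq_toFinset_card _ hWfin]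
  have h9 := Nat.le_of_mul_le_mul_right h8 hXpos
  have h10 := Set.ncard_sdiff_singleton_add_one h0 (Set.toFinite _)
  omega

/-- A basis of the quotient consisting of elements with large fibres. -/
theorem TB.exists_basis [Finite K] [FiniteDimensional K V] {C : Set V} {k : ℕ} (h : TB K C k)
    {U : Submodule K V} {Wc : Set (V ⧸ U)} (h0 : (0 : V ⧸ U) ∈ Wc) (hW : ∀ c ∈ C, U.mkQ c ∈ Wc) :
    ∃ b : Basis (Fin (finrank K (V ⧸ U))) K (V ⧸ U), ∀ i, (Nat.card K - 1) * Nat.card K ^ k <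
      Wc.ncard * ({c | c ∈ C ∧ U.mkQ c = b i}).ncard := by
  classical
  obtain ⟨G, hG⟩ : ∃ G : Set (V ⧸ U), G = {w | (Nat.card K - 1) * Nat.card K ^ k <
      Wc.ncard * ({c | c ∈ C ∧ U.mkQ c = w}).ncard} := ⟨_, rfl⟩
  have hGt : span K G = ⊤ := by
    by_contra hne
    obtain ⟨t, ht, hle⟩ := Submodule.exists_le_ker_of_lt_top (span K G) (lt_top_iff_ne_top.2 hne)
    obtain ⟨w, htw, hw⟩ := h.exists_fibre h0 hW ht
    have h1 : w ∈ G := by rw [hG]; exact hw
    exact htw (hle (subset_span h1))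
  obtain ⟨B, hBG, hBs, hBl⟩ := exists_linearIndependent K G
  have hBt : ⊤ ≤ span K (Set.range ((↑) : B → V ⧸ U)) := by
    rw [Subtype.range_coe, hBs, hGt]
  obtain ⟨b', hb'⟩ : ∃ b' : Basis B K (V ⧸ U), ∀ i, b' i = (i : V ⧸ U) :=
    ⟨Basis.mk hBl hBt, fun i => Basis.mk_apply hBl hBt i⟩
  have hfB : Fintype B := FiniteDimensional.fintypeBasisIndex b'
  have hcard : Fintype.card B = finrank K (V ⧸ U) := (finrank_eq_card_basis b').symm
  refine ⟨b'.reindex (Fintype.equivFinOfCardEq hcard), fun i => ?_⟩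
  rw [Basis.reindex_apply, hb']
  have h2 : (((Fintype.equivFinOfCardEq hcard).symm i : B) : V ⧸ U) ∈ G := hBG (Subtype.coe_prop _)
  rw [hG] at h2
  exact h2

/-- The number of elements of the image of the configuration in the quotient. -/
theorem card_cross [Finite K] [FiniteDimensional K V] {m : ℕ} {Θ : V →ₗ[K] (Fin m → K × K)}
    (hs : Function.Surjective Θ) {U : Submodule K V} (hU : U ≤ LinearMap.ker Θ) :
    ({w : V ⧸ U | ∀ i, (U.liftQ Θ hU w i).1 * (U.liftQ Θ hU w i).2 = 0}).ncard *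
      Nat.card K ^ (2 * m) = (2 * Nat.card K - 1) ^ m * Nat.card K ^ (finrank K (V ⧸ U)) := by
  have hfQ : Finite (V ⧸ U) := Module.finite_of_finite K
  have hs' : Function.Surjective (U.liftQ Θ hU) := by
    intro y
    obtain ⟨x, hx⟩ := hs y
    exact ⟨U.mkQ x, hx⟩
  have h1 := card_preimage (U.liftQ Θ hU) hs' {z | ∀ i, (z i).1 * (z i).2 = 0}
  have h2 : ({w : V ⧸ U | ∀ i, (U.liftQ Θ hU w i).1 * (U.liftQ Θ hU w i).2 = 0}).ncard =
      Nat.card (LinearMap.ker (U.liftQ Θ hU)) * (2 * Nat.card K - 1) ^ m := by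
    rw [← card_pairs_pi K m]
    exact h1
  have h3 := card_ker_mul (U.liftQ Θ hU) hs'
  have h4 : Nat.card (Fin m → K × K) = Nat.card K ^ (2 * m) := by
    rw [Nat.card_fun, Nat.card_prod, Nat.card_fin, pow_mul, sq]
  rw [h4] at h3
  rw [h2, ← Module.natCard_eq_pow_finrank (K := K) (V := V ⧸ U), ← h3]
  ring

/-- The rank of a tangential block without a spanning bond. -/
theorem TB.rank_bound [Finite K] [FiniteDimensional K V] {C : Set V} {k u : ℕ} (h : TB K C k)
    (hr : finrank K V = k + 1 + u) :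
    (Nat.card K - 1) * Nat.card K ^ k < 2 * u * (2 * Nat.card K - 1) ^ u := by
  classical
  have hfV : Finite V := Module.finite_of_finite K
  have hq : 1 < Nat.card K := Finite.one_lt_card
  obtain ⟨q, hqq⟩ : ∃ q, q = Nat.card K := ⟨_, rfl⟩
  rw [← hqq] at hq ⊢
  obtain ⟨m, ⟨Θ, hs, hΘ⟩, hmax⟩ := exists_max_prs (K := K) C
  obtain ⟨U, hU⟩ : ∃ U : Submodule K V, U = span K (C ∩ (LinearMap.ker Θ : Set V)) := ⟨_, rfl⟩
  have hUΘ : U ≤ LinearMap.ker Θ := by
    rw [hU, span_le]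
    exact Set.inter_subset_right
  have hfU : Finite (Dual K U) := Module.finite_of_finite K
  have hdim := U.finrank_quotient_add_finrank
  rw [hr] at hdim
  -- the sets covered by the sums and by the coordinates
  have c1 : cov K (C \ (LinearMap.ker Θ : Set V)) m := by
    refine ⟨LinearMap.pi fun i => LinearMap.fst K K K ∘ₗ LinearMap.proj i ∘ₗ Θ +
      LinearMap.snd K K K ∘ₗ LinearMap.proj i ∘ₗ Θ, fun c hc h1 => hc.2 ?_⟩
    change Θ c = 0
    funext i
    have h2 : (Θ c i).1 + (Θ c i).2 = 0 := congrFun h1 i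
    have h3 := hΘ c hc.1 i
    have h4 : (Θ c i).1 = 0 ∧ (Θ c i).2 = 0 := by
      rcases mul_eq_zero.1 h3 with h5 | h5
      · rw [h5, zero_add] at h2
        exact ⟨h5, h2⟩
      · rw [h5, add_zero] at h2
        exact ⟨h2, h5⟩
    exact Prod.ext h4.1 h4.2
  have hnot : ∀ j, cov K C j → k + 1 ≤ j := by
    intro j hj
    by_contra hcon
    obtain ⟨φ, hφ⟩ := cov_mono hj (by omega : j ≤ k)
    obtain ⟨c, hc, hc0⟩ := h.block φ
    exact hφ c hc hc0
  have hnot' : ∀ j, cov K (C ∩ (LinearMap.ker Θ : Set V)) j → k + 1 ≤ m + j := by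
    intro j hj
    refine hnot _ ?_
    have := cov_add c1 hj
    rwa [Set.sdiff_union_inter] at this
  have c2 : cov K (C ∩ (LinearMap.ker Θ : Set V)) (finrank K U) := by
    rw [hU]
    exact cov_rank fun h1 => h.zero h1.1
  have hρ := hnot' _ c2
  have hker : finrank K U + 2 * m ≤ k + 1 + u := by
    have h1 := Θ.finrank_range_add_finrank_ker
    rw [LinearMap.range_eq_top.2 hs, finrank_top, Module.finrank_pi_fintype] at h1
    simp only [Module.finrank_prod, finrank_self, Finset.sum_const, Finset.card_univ,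
      Fintype.card_fin, smul_eq_mul] at h1
    have h2 := Submodule.finrank_mono hUΘ
    omega
  have hmu : m ≤ u := by omega
  have hτ : finrank K (V ⧸ U) ≤ 2 * u := by omega
  rcases Nat.lt_or_ge k u with hku | hku
  · -- the case of large rank
    have h1 : (q - 1) * q ^ k < (2 * q - 1) * (2 * q - 1) ^ k :=
      Nat.mul_lt_mul_of_lt_of_le (by omega) (Nat.pow_le_pow_left (by omega) _)
        (pow_pos (by omega) _)
    rw [← pow_succ'] at h1
    have h2 : (2 * q - 1) ^ (k + 1) ≤ (2 * q - 1) ^ u := Nat.pow_le_pow_right (by omega) (by omega)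
    have h3 : 1 * (2 * q - 1) ^ u ≤ 2 * u * (2 * q - 1) ^ u := Nat.mul_le_mul_right _ (by omega)
    omega
  -- the number of elements in the kernel of the pairs
  have hBB : q ^ (k - m + 1) ≤ (C ∩ (LinearMap.ker Θ : Set V)).ncard + 1 := by
    by_contra hcon
    rw [hqq] at hcon
    have h1 := hnot' _ (bb_cone (K := K) (S := C ∩ (LinearMap.ker Θ : Set V)) (fun h1 => h.zero h1.1) (by
      rintro a ha v ⟨hv, hvΘ⟩
      refine ⟨h.smul a ha v hv, ?_⟩
      exact smul_mem _ _ hvΘ) (not_le.1 hcon))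
    omega
  have hF1 : (U.subtype '' {v : U | (v : V) ∈ C}) = C ∩ (LinearMap.ker Θ : Set V) := by
    ext x
    constructor
    · rintro ⟨y, hy, rfl⟩
      exact ⟨hy, hUΘ y.2⟩
    · intro hx
      exact ⟨⟨x, hU ▸ subset_span hx⟩, hx.1, rfl⟩
  have hF2 : ({v : U | (v : V) ∈ C}).ncard = (C ∩ (LinearMap.ker Θ : Set V)).ncard := by
    rw [← hF1, Set.ncard_image_of_injective _ U.subtype_injective]
  have hF3 : span K {v : U | (v : V) ∈ C} = ⊤ := by
    apply Submodule.map_injective_of_injective U.subtype_injective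
    rw [Submodule.map_span, hF1, ← hU, Submodule.map_top, Submodule.range_subtype]
  have hM : ({v : U | (v : V) ∈ C}).ncard ≤ (hyp K {v : U | (v : V) ∈ C}).ncard :=
    motz (fun h1 => h.zero h1) hF3 fun a ha v hv => h.smul a ha v hv
  obtain ⟨Wc, hWc⟩ : ∃ Wc : Set (V ⧸ U), Wc = {w : V ⧸ U | ∀ i, (U.liftQ Θ hUΘ w i).1 *
      (U.liftQ Θ hUΘ w i).2 = 0} := ⟨_, rfl⟩
  have hcr := card_cross hs hUΘ
  rw [← hWc, ← hqq] at hcr
  obtain ⟨b, hb⟩ := h.exists_basis (U := U) (Wc := Wc) (by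
    rw [hWc]
    intro i
    rw [map_zero]
    exact mul_zero _) (by
    intro c hc
    rw [hWc]
    exact hΘ c hc)
  rw [← hqq] at hb
  obtain ⟨bad, hbad⟩ : ∃ bad : Fin (finrank K (V ⧸ U)) → Set (Dual K U), bad = fun i =>
      {φ : Dual K U | ∀ c ∈ C, ∀ c' ∈ C, U.mkQ c = b i → U.mkQ c' = b i → ∀ d : U, (d : V) = c - c' →
        φ d = 0} := ⟨_, rfl⟩
  have hbm : ∀ i, (bad i).ncard * ({c | c ∈ C ∧ U.mkQ c = b i}).ncard ≤ q ^ finrank K U := by
    intro i
    rw [hbad, hqq, ← Module.natCard_eq_pow_finrank (K := K) (V := U)]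
    exact bad_mul_le C U (b i)
  have hex : ∀ φ ∈ hyp K {v : U | (v : V) ∈ C}, ∃ i, φ ∈ bad i := by
    intro φ hφ
    obtain ⟨i, hi⟩ := h.exists_const hs hΘ hmax hU b hφ
    refine ⟨i, ?_⟩
    rw [hbad]
    exact hi
  have hpw : 1 < q ^ (k - m + 1) := Nat.one_lt_pow (by omega) hq
  have hne : ∃ i : Fin (finrank K (V ⧸ U)), True := by
    by_contra hcon
    have h1 : hyp K {v : U | (v : V) ∈ C} = ∅ := by
      rw [Set.eq_empty_iff_forall_notMem]
      intro φ hφ
      obtain ⟨i, -⟩ := hex φ hφ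
      exact hcon ⟨i, trivial⟩
    rw [h1, Set.ncard_empty] at hM
    omega
  obtain ⟨i0, -⟩ := hne
  have hzero : ∀ i, (0 : Dual K U) ∈ bad i := by
    intro i
    rw [hbad]
    intro c _ c' _ _ _ d _
    rfl
  have hsum : q ^ (k - m + 1) ≤ ∑ i, (bad i).ncard := by
    have h1 : insert 0 (hyp K {v : U | (v : V) ∈ C}) ⊆ ⋃ i, bad i := by
      intro φ hφ
      rw [Set.mem_iUnion]
      rcases hφ with rfl | hφ
      · exact ⟨i0, hzero i0⟩
      · exact hex φ hφ
    have h2 := Set.ncard_le_ncard h1 (Set.toFinite _)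
    rw [Set.ncard_insert_of_notMem (fun h3 => h3.1 rfl) (Set.toFinite _)] at h2
    have h3 : (⋃ i, bad i).ncard ≤ ∑ i, (bad i).ncard := by
      have h4 := Set.ncard_iUnion_le_of_fintype bad
      exact h4
    omega
  -- the final computation
  obtain ⟨X, hX⟩ : ∃ X, X = (q - 1) * q ^ k := ⟨_, rfl⟩
  rw [← hX] at hb ⊢
  have f1 : q ^ (k - m + 1) * X < finrank K (V ⧸ U) * (Wc.ncard * q ^ finrank K U) := by
    calc q ^ (k - m + 1) * X ≤ (∑ i, (bad i).ncard) * X := Nat.mul_le_mul_right _ hsum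
      _ = ∑ i, (bad i).ncard * X := Finset.sum_mul _ _ _
      _ < ∑ i : Fin (finrank K (V ⧸ U)), Wc.ncard * q ^ finrank K U := by
          refine Finset.sum_lt_sum_of_nonempty ⟨i0, Finset.mem_univ _⟩ fun i _ => ?_
          have h1 : 0 < (bad i).ncard := (Set.ncard_pos (Set.toFinite _)).2 ⟨0, hzero i⟩
          calc (bad i).ncard * X < (bad i).ncard * (Wc.ncard * ({c | c ∈ C ∧ U.mkQ c = b i}).ncard) :=
                Nat.mul_lt_mul_of_pos_left (hb i) h1
            _ = Wc.ncard * ((bad i).ncard * ({c | c ∈ C ∧ U.mkQ c = b i}).ncard) := by ring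
            _ ≤ Wc.ncard * q ^ finrank K U := Nat.mul_le_mul_left _ (hbm i)
      _ = finrank K (V ⧸ U) * (Wc.ncard * q ^ finrank K U) := by
          rw [Finset.sum_const, Finset.card_univ, Fintype.card_fin, smul_eq_mul]
  have hqpos : 0 < q := by omega
  have f2 : q ^ (k - m + 1) * X * q ^ (2 * m) <
      2 * u * ((2 * q - 1) ^ m * q ^ (k + 1 + u)) := by
    calc q ^ (k - m + 1) * X * q ^ (2 * m)
        < finrank K (V ⧸ U) * (Wc.ncard * q ^ finrank K U) * q ^ (2 * m) :=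
          Nat.mul_lt_mul_of_pos_right f1 (pow_pos hqpos _)
      _ = finrank K (V ⧸ U) * ((Wc.ncard * q ^ (2 * m)) * q ^ finrank K U) := by ring
      _ = finrank K (V ⧸ U) * ((2 * q - 1) ^ m * q ^ (k + 1 + u)) := by
          rw [hcr, mul_assoc ((2 * q - 1) ^ m), ← pow_add, hdim]
      _ ≤ 2 * u * ((2 * q - 1) ^ m * q ^ (k + 1 + u)) := Nat.mul_le_mul_right _ hτ
  have f3 : q ^ (k - m + 1) * X * q ^ (2 * m) = (X * q ^ m) * q ^ (k + 1) := by
    have : q ^ (k - m + 1) * q ^ (2 * m) = q ^ m * q ^ (k + 1) := by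
      rw [← pow_add, ← pow_add]
      congr 1
      omega
    calc q ^ (k - m + 1) * X * q ^ (2 * m) = X * (q ^ (k - m + 1) * q ^ (2 * m)) := by ring
      _ = (X * q ^ m) * q ^ (k + 1) := by rw [this]; ring
  have f4 : 2 * u * ((2 * q - 1) ^ m * q ^ (k + 1 + u)) =
      (2 * u * ((2 * q - 1) ^ m * q ^ u)) * q ^ (k + 1) := by
    rw [pow_add q (k + 1) u]; ring
  rw [f3, f4] at f2
  have f5 := Nat.lt_of_mul_lt_mul_right f2
  have f6 : q ^ u = q ^ (u - m) * q ^ m := by
    rw [← pow_add]; congr 1; omega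
  have f7 : X * q ^ m < (2 * u * ((2 * q - 1) ^ m * q ^ (u - m))) * q ^ m := by
    refine f5.trans_le (le_of_eq ?_)
    rw [f6]; ring
  have f8 := Nat.lt_of_mul_lt_mul_right f7
  refine f8.trans_le (Nat.mul_le_mul_left _ ?_)
  have f9 : (2 * q - 1) ^ u = (2 * q - 1) ^ m * (2 * q - 1) ^ (u - m) := by
    rw [← pow_add]; congr 1; omega
  rw [f9]
  exact Nat.mul_le_mul_left _ (Nat.pow_le_pow_left (by omega) _)

end

end MPddf864
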